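import Mathlib

/-!
Project SC (MP_335839_SC), helper74: abstract cocycle lemmas (descent, transfer, torsion).
-/

set_option autoImplicit false
set_option linter.unusedSectionVars false

open Topology

namespace Pool.Agent.H74.SC

section

variable {G : Type} [Group G] [TopologicalSpace G] [IsTopologicalGroup G]
  {R : Type} [CommRing R] [IsDomain R] [CharZero R] [TopologicalSpace R] [IsTopologicalRing R]

/-- cocycles on a subgroup with local conditions -/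
structure Cz (ψ : G →* R) (𝒟 𝓘 : Set (Subgroup G)) (H : Subgroup G) (c : G → R) : Prop where
  cont : ContinuousOn c H
  mul : ∀ g ∈ H, ∀ h ∈ H, c (g * h) = c g + ψ g * c h
  unr : ∀ I ∈ 𝓘, ∀ g ∈ I, g ∈ H → c g = 0
  loc : ∀ D ∈ 𝒟, ∃ b, ∀ g ∈ D, g ∈ H → c g = (ψ g - 1) * b

/-- the corresponding group vanishes -/
def Zero (ψ : G →* R) (𝒟 𝓘 : Set (Subgroup G)) (H : Subgroup G) : Prop :=
  ∀ c : G → R, Cz ψ 𝒟 𝓘 H c → ∃ b, ∀ g ∈ H, c g = (ψ g - 1) * b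

/-- the family is stable under conjugation -/
def Stab (𝒟 : Set (Subgroup G)) : Prop := ∀ D ∈ 𝒟, ∀ t : G, ∃ D' ∈ 𝒟, ∀ g ∈ D, t⁻¹ * g * t ∈ D'

omit [TopologicalSpace G] [IsTopologicalGroup G] [IsDomain R] [CharZero R] [TopologicalSpace R] [IsTopologicalRing R] in
theorem coc_one {ψ : G →* R} {H : Subgroup G} {c : G → R}
    (hc : ∀ g ∈ H, ∀ h ∈ H, c (g * h) = c g + ψ g * c h) : c 1 = 0 := by
  have h := hc 1 H.one_mem 1 H.one_mem
  simp at h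
  exact h

/-- descent from `H` to a normal subgroup -/
theorem descend {ψ : G →* R} {𝒟 𝓘 : Set (Subgroup G)} {N H : Subgroup G} (hNH : N ≤ H)
    (hn : ∀ h ∈ H, ∀ n ∈ N, h⁻¹ * n * h ∈ N) (hψ : ∃ n ∈ N, ψ n ≠ 1) (hN : Zero ψ 𝒟 𝓘 N) : Zero ψ 𝒟 𝓘 H := by
  intro c hc
  obtain ⟨b, hb⟩ := hN c ⟨hc.cont.mono hNH, fun g hg h hh => hc.mul g (hNH hg) h (hNH hh),
    fun I hI g hg hgN => hc.unr I hI g hg (hNH hgN), fun D hD => by
      obtain ⟨b, hb⟩ := hc.loc D hD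
      exact ⟨b, fun g hg hgN => hb g hg (hNH hgN)⟩⟩
  refine ⟨b, fun g hg => ?_⟩
  obtain ⟨n, hn1, hn2⟩ := hψ
  have h1 := hc.mul n (hNH hn1) g hg
  have h2 := hc.mul g hg (g⁻¹ * n * g) (hNH (hn g hg n hn1))
  have h3 : n * g = g * (g⁻¹ * n * g) := by group
  have h4 : ψ (g⁻¹ * n * g) = ψ n := by
    rw [map_mul, map_mul, mul_comm (ψ g⁻¹) (ψ n), mul_assoc, ← map_mul]
    simp
  rw [h3, h2, hb _ (hn g hg n hn1), hb n hn1, h4] at h1
  have h5 : (ψ n - 1) * (c g - (ψ g - 1) * b) = 0 := by linear_combination -h1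
  rcases mul_eq_zero.1 h5 with h6 | h6
  · exact absurd (sub_eq_zero.1 h6) hn2
  · exact sub_eq_zero.1 h6

/-- data: a subgroup `U`, a homomorphism `π` of `U` onto `E` with section `s` -/
structure Dat (G E : Type) [Group G] [Group E] where
  U : Subgroup G
  π : G → E
  s : E → G
  mul : ∀ g ∈ U, ∀ h ∈ U, π (g * h) = π g * π h
  sU : ∀ e, s e ∈ U
  πs : ∀ e, π (s e) = e
  s1 : s 1 = 1

namespace Dat

variable {E : Type} [Group E] (d : Dat G E)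

theorem π_one : d.π 1 = 1 := by
  have h := d.πs 1
  rwa [d.s1] at h

theorem π_inv {g : G} (hg : g ∈ d.U) : d.π g⁻¹ = (d.π g)⁻¹ := by
  have h := d.mul g⁻¹ (d.U.inv_mem hg) g hg
  rw [inv_mul_cancel, d.π_one] at h
  exact eq_inv_of_mul_eq_one_left h.symm

/-- the preimage of a subgroup -/
def H (E' : Subgroup E) : Subgroup G where
  carrier := {g | g ∈ d.U ∧ d.π g ∈ E'}
  one_mem' := ⟨d.U.one_mem, by rw [d.π_one]; exact E'.one_mem⟩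
  mul_mem' := by
    rintro a b ⟨ha, ha'⟩ ⟨hb, hb'⟩
    exact ⟨d.U.mul_mem ha hb, by rw [d.mul a ha b hb]; exact E'.mul_mem ha' hb'⟩
  inv_mem' := by
    rintro a ⟨ha, ha'⟩
    exact ⟨d.U.inv_mem ha, by rw [d.π_inv ha]; exact E'.inv_mem ha'⟩

theorem mem_H {E' : Subgroup E} {g : G} : g ∈ d.H E' ↔ g ∈ d.U ∧ d.π g ∈ E' := Iff.rfl

theorem mem_bot {g : G} : g ∈ d.H ⊥ ↔ g ∈ d.U ∧ d.π g = 1 := by
  rw [mem_H, Subgroup.mem_bot]

theorem bot_le (E' : Subgroup E) : d.H ⊥ ≤ d.H E' := by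
  intro g hg
  rw [mem_bot] at hg
  exact ⟨hg.1, by rw [hg.2]; exact E'.one_mem⟩

theorem conj_bot {n t : G} (hn : n ∈ d.H ⊥) (ht : t ∈ d.U) : t⁻¹ * n * t ∈ d.H ⊥ := by
  rw [mem_bot] at hn ⊢
  refine ⟨d.U.mul_mem (d.U.mul_mem (d.U.inv_mem ht) hn.1) ht, ?_⟩
  rw [d.mul _ (d.U.mul_mem (d.U.inv_mem ht) hn.1) _ ht, d.mul _ (d.U.inv_mem ht) _ hn.1, d.π_inv ht, hn.2]
  group

open Classical in
/-- the transfer of a cocycle on `H ⊥` to `H E'` -/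
noncomputable def cores [Fintype E] (ψ : G →* R) (E' : Subgroup E) (c : G → R) (h : G) : R :=
  ∑ q ∈ Finset.univ.filter (· ∈ E'), ψ (d.s q) * c ((d.s q)⁻¹ * h * d.s ((d.π h)⁻¹ * q))

theorem arg_mem {E' : Subgroup E} {h : G} (hh : h ∈ d.H E') (q : E) :
    (d.s q)⁻¹ * h * d.s ((d.π h)⁻¹ * q) ∈ d.H ⊥ := by
  rw [mem_bot]
  refine ⟨d.U.mul_mem (d.U.mul_mem (d.U.inv_mem (d.sU _)) hh.1) (d.sU _), ?_⟩
  rw [d.mul _ (d.U.mul_mem (d.U.inv_mem (d.sU _)) hh.1) _ (d.sU _), d.mul _ (d.U.inv_mem (d.sU _)) _ hh.1,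
    d.π_inv (d.sU _), d.πs, d.πs]
  group

open Classical in
theorem cores_mul [Fintype E] {ψ : G →* R} {E' : Subgroup E} {c : G → R}
    (hc : ∀ g ∈ d.H ⊥, ∀ h ∈ d.H ⊥, c (g * h) = c g + ψ g * c h) {g h : G} (hg : g ∈ d.H E') (hh : h ∈ d.H E') :
    d.cores ψ E' c (g * h) = d.cores ψ E' c g + ψ g * d.cores ψ E' c h := by
  have h1 : ∀ q, ψ (d.s q) * c ((d.s q)⁻¹ * (g * h) * d.s ((d.π (g * h))⁻¹ * q)) =
      ψ (d.s q) * c ((d.s q)⁻¹ * g * d.s ((d.π g)⁻¹ * q)) +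
      ψ g * (ψ (d.s ((d.π g)⁻¹ * q)) * c ((d.s ((d.π g)⁻¹ * q))⁻¹ * h * d.s ((d.π h)⁻¹ * ((d.π g)⁻¹ * q)))) := by
    intro q
    have e1 : (d.s q)⁻¹ * (g * h) * d.s ((d.π (g * h))⁻¹ * q) =
        ((d.s q)⁻¹ * g * d.s ((d.π g)⁻¹ * q)) *
          ((d.s ((d.π g)⁻¹ * q))⁻¹ * h * d.s ((d.π h)⁻¹ * ((d.π g)⁻¹ * q))) := by
      rw [d.mul g hg.1 h hh.1, mul_inv_rev, mul_assoc (d.π h)⁻¹]
      group
    rw [e1, hc _ (d.arg_mem hg q) _ (d.arg_mem hh _)]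
    have e2 : ψ (d.s q) * ψ ((d.s q)⁻¹ * g * d.s ((d.π g)⁻¹ * q)) = ψ g * ψ (d.s ((d.π g)⁻¹ * q)) := by
      rw [← map_mul, ← map_mul]
      congr 1
      group
    rw [mul_add, ← mul_assoc, e2]
    ring
  unfold cores
  rw [Finset.sum_congr rfl fun q _ => h1 q, Finset.sum_add_distrib, ← Finset.mul_sum]
  congr 2
  refine Finset.sum_bij' (fun q _ => (d.π g)⁻¹ * q) (fun q _ => d.π g * q) ?_ ?_ ?_ ?_ ?_
  · intro q hq
    simp only [Finset.mem_filter, Finset.mem_univ, true_and] at hq ⊢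
    exact E'.mul_mem (E'.inv_mem hg.2) hq
  · intro q hq
    simp only [Finset.mem_filter, Finset.mem_univ, true_and] at hq ⊢
    exact E'.mul_mem hg.2 hq
  · intro q _
    group
  · intro q _
    group
  · intro q _
    rfl

open Classical in
theorem cores_bot [Fintype E] {ψ : G →* R} {E' : Subgroup E} {c : G → R} {n : G} (hn : n ∈ d.H ⊥) :
    d.cores ψ E' c n = ∑ q ∈ Finset.univ.filter (· ∈ E'), ψ (d.s q) * c ((d.s q)⁻¹ * n * d.s q) := by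
  unfold cores
  rw [(d.mem_bot.1 hn).2]
  simp

end Dat

end

end Pool.Agent.H74.SC
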