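import Mathlib

/-!
Project SC (MP_335839_SC), helper74. Partition of a non-cyclic group of order `q q'` by its subgroups of prime order.
-/

set_option autoImplicit false

namespace Pool.Agent.H74.SC

open Classical in
theorem par {E : Type} [Group E] [Finite E] (E0 : Subgroup E) {q q' : ℕ} (hq : q.Prime) (hq' : q'.Prime)
    (hc : Nat.card E0 = q * q') (hn : ¬ IsCyclic E0) :
    ∃ (𝓟 : Finset (Subgroup E)) (k : ℕ), 0 < k ∧ (∀ H ∈ 𝓟, H ≤ E0 ∧ H ≠ ⊥) ∧
      ∀ (A : Type) [AddCommGroup A] (f : E → A) [Fintype E],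
        ∑ H ∈ 𝓟, ∑ x ∈ Finset.univ.filter (· ∈ H), f x =
          ∑ x ∈ Finset.univ.filter (· ∈ E0), f x + k • f 1 := by
  have hfin : Finite (Subgroup E) := inferInstance
  have : Fintype (Subgroup E) := Fintype.ofFinite _
  -- orders of elements
  have hord : ∀ x ∈ E0, x ≠ 1 → (orderOf x).Prime := by
    intro x hx hx1
    have h1 : orderOf x ∣ q * q' := by
      rw [← hc, ← Subgroup.orderOf_mk x hx]
      exact orderOf_dvd_natCard _
    have h2 : orderOf x ≠ q * q' := by
      intro h
      apply hn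
      exact isCyclic_of_orderOf_eq_card (⟨x, hx⟩ : E0) (by rw [Subgroup.orderOf_mk, h, hc])
    have h3 : orderOf x ≠ 1 := by
      rwa [Ne, orderOf_eq_one_iff]
    rcases (Nat.dvd_mul.1 h1) with ⟨a, b, ha, hb, hab⟩
    rcases (Nat.dvd_prime hq).1 ha with rfl | rfl <;> rcases (Nat.dvd_prime hq').1 hb with rfl | rfl
    · simp at hab
      exact absurd hab.symm h3
    · rw [← hab, one_mul]
      exact hq'
    · rw [← hab, mul_one]
      exact hq
    · exact absurd hab.symm h2
  let 𝓟 : Finset (Subgroup E) := Finset.univ.filter (fun H => H ≤ E0 ∧ (Nat.card H).Prime)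
  have hmem : ∀ H, H ∈ 𝓟 ↔ H ≤ E0 ∧ (Nat.card H).Prime := by
    intro H
    simp only [𝓟, Finset.mem_filter, Finset.mem_univ, true_and]
  have hz : ∀ x ∈ E0, x ≠ 1 → Subgroup.zpowers x ∈ 𝓟 := by
    intro x hx hx1
    rw [hmem, Nat.card_zpowers]
    exact ⟨(Subgroup.zpowers_le).2 hx, hord x hx hx1⟩
  have huniq : ∀ H ∈ 𝓟, ∀ x ∈ H, x ≠ 1 → H = Subgroup.zpowers x := by
    intro H hH x hx hx1
    have h1 := ((hmem H).1 hH).2
    have h2 : Subgroup.zpowers x ≤ H := (Subgroup.zpowers_le).2 hx
    have h3 : Nat.card (Subgroup.zpowers x) ∣ Nat.card H := Subgroup.card_dvd_of_le h2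
    rcases (Nat.dvd_prime h1).1 h3 with h4 | h4
    · rw [Nat.card_zpowers, orderOf_eq_one_iff] at h4
      exact absurd h4 hx1
    · exact (Subgroup.eq_of_le_of_card_ge h2 h4.ge).symm
  have hcard2 : 2 ≤ 𝓟.card := by
    have hE0 : E0 ≠ ⊥ := by
      rintro rfl
      rw [Subgroup.card_bot] at hc
      have h2 := hq.two_le
      have h3 := hq'.two_le
      nlinarith
    obtain ⟨x, hx, hx1⟩ := (E0.bot_or_exists_ne_one).resolve_left hE0
    have h1 : ¬ E0 ≤ Subgroup.zpowers x := by
      intro h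
      have h2 : Subgroup.zpowers x = E0 := le_antisymm ((Subgroup.zpowers_le).2 hx) h
      apply hn
      rw [← h2]
      infer_instance
    obtain ⟨y, hy, hyx⟩ := SetLike.not_le_iff_exists.1 h1
    have hy1 : y ≠ 1 := by
      rintro rfl
      exact hyx (Subgroup.one_mem _)
    have h3 : Subgroup.zpowers x ≠ Subgroup.zpowers y := by
      intro h
      apply hyx
      rw [h]
      exact Subgroup.mem_zpowers y
    exact Finset.one_lt_card.2 ⟨_, hz x hx hx1, _, hz y hy hy1, h3⟩
  refine ⟨𝓟, 𝓟.card - 1, by omega, fun H hH => ⟨((hmem H).1 hH).1, ?_⟩, ?_⟩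
  · rintro rfl
    have h1 := ((hmem ⊥).1 hH).2
    rw [Subgroup.card_bot] at h1
    exact Nat.not_prime_one h1
  · intro A _ f _
    -- pull out the value at `1`
    have h1 : ∀ H : Subgroup E, ∑ x ∈ Finset.univ.filter (· ∈ H), f x =
        ∑ x ∈ Finset.univ.filter (fun x => x ∈ H ∧ x ≠ 1), f x + f 1 := by
      intro H
      have h2 : Finset.univ.filter (· ∈ H) = insert 1 (Finset.univ.filter (fun x => x ∈ H ∧ x ≠ 1)) := by
        ext x
        simp only [Finset.mem_filter, Finset.mem_univ, true_and, Finset.mem_insert]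
        constructor
        · intro hx
          by_cases hx1 : x = 1
          · exact Or.inl hx1
          · exact Or.inr ⟨hx, hx1⟩
        · rintro (rfl | ⟨hx, -⟩)
          · exact H.one_mem
          · exact hx
      rw [h2, Finset.sum_insert (by simp), add_comm]
    have h3 : ∑ H ∈ 𝓟, ∑ x ∈ Finset.univ.filter (fun x => x ∈ H ∧ x ≠ 1), f x =
        ∑ x ∈ Finset.univ.filter (fun x => x ∈ E0 ∧ x ≠ 1), f x := by
      rw [← Finset.sum_biUnion]
      · apply Finset.sum_congr _ fun _ _ => rfl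
        ext x
        simp only [Finset.mem_biUnion, Finset.mem_filter, Finset.mem_univ, true_and]
        constructor
        · rintro ⟨H, hH, hx, hx1⟩
          exact ⟨((hmem H).1 hH).1 hx, hx1⟩
        · rintro ⟨hx, hx1⟩
          exact ⟨_, hz x hx hx1, Subgroup.mem_zpowers x, hx1⟩
      · intro H hH H' hH' hne
        change Disjoint _ _
        rw [Finset.disjoint_left]
        intro x hx hx'
        simp only [Finset.mem_filter, Finset.mem_univ, true_and] at hx hx'
        apply hne
        rw [huniq H hH x hx.1 hx.2, huniq H' hH' x hx'.1 hx'.2]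
    rw [Finset.sum_congr rfl fun H _ => h1 H, Finset.sum_add_distrib, h3, h1 E0, Finset.sum_const, add_assoc]
    congr 1
    have h4 : 𝓟.card = 1 + (𝓟.card - 1) := by omega
    nth_rewrite 1 [h4]
    rw [add_nsmul, one_nsmul]

end Pool.Agent.H74.SC
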