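import Pool.Agent.H74.SC.Ab
import Pool.Agent.H74.SC.Par

/-!
Project SC (MP_335839_SC), helper74: the transfer satisfies the local conditions; the main abstract theorem.
-/

set_option autoImplicit false
set_option linter.unusedSectionVars false

open Topology

namespace Pool.Agent.H74.SC

variable {G : Type} [Group G] [TopologicalSpace G] [IsTopologicalGroup G]
  {R : Type} [CommRing R] [IsDomain R] [CharZero R] [TopologicalSpace R] [IsTopologicalRing R]

theorem psi_conj (ψ : G →* R) (t g : G) : ψ (t⁻¹ * g * t) = ψ g := by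
  rw [map_mul, map_mul, mul_comm (ψ t⁻¹) (ψ g), mul_assoc, ← map_mul]
  simp

/-- a cocycle which is a coboundary on the kernel of a homomorphism to a finite group is a coboundary after multiplication
by the order -/
theorem fin_kill {E : Type} [Group E] [Fintype E] {ψ : G →* R} {D : Subgroup G} {N : Subgroup G} {π : G → E}
    (hπ : ∀ g ∈ D, ∀ h ∈ D, π (g * h) = π g * π h) (hN : ∀ g ∈ D, π g = 1 → g ∈ N) {y : G → R}
    (hy : ∀ g ∈ D, ∀ h ∈ D, y (g * h) = y g + ψ g * y h) {b : R} (hb : ∀ g ∈ D, g ∈ N → y g = (ψ g - 1) * b) :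
    ∃ b', ∀ g ∈ D, (Nat.card E : R) * y g = (ψ g - 1) * b' := by
  classical
  -- the image of `D`
  let E'' : Subgroup E := {
    carrier := {q | ∃ t ∈ D, π t = q}
    one_mem' := ⟨1, D.one_mem, by
      have h := hπ 1 D.one_mem 1 D.one_mem
      rw [mul_one] at h
      exact (mul_eq_left.1 h.symm)⟩
    mul_mem' := by
      rintro _ _ ⟨t, ht, rfl⟩ ⟨u, hu, rfl⟩
      exact ⟨t * u, D.mul_mem ht hu, hπ t ht u hu⟩
    inv_mem' := by
      rintro _ ⟨t, ht, rfl⟩
      refine ⟨t⁻¹, D.inv_mem ht, ?_⟩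
      have h := hπ 1 D.one_mem 1 D.one_mem
      rw [mul_one] at h
      have h1 : π 1 = 1 := mul_eq_left.1 h.symm
      have h2 := hπ t⁻¹ (D.inv_mem ht) t ht
      rw [inv_mul_cancel, h1] at h2
      exact eq_inv_of_mul_eq_one_left h2.symm }
  have hE : ∀ q ∈ E'', ∃ t ∈ D, π t = q := fun q hq => hq
  let z : G → R := fun g => y g - (ψ g - 1) * b
  have hz : ∀ g ∈ D, ∀ h ∈ D, z (g * h) = z g + ψ g * z h := by
    intro g hg h hh
    change y (g * h) - (ψ (g * h) - 1) * b = (y g - (ψ g - 1) * b) + ψ g * (y h - (ψ h - 1) * b)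
    rw [hy g hg h hh, map_mul]
    ring
  have hz0 : ∀ g ∈ D, g ∈ N → z g = 0 := fun g hg hgN => by
    change y g - (ψ g - 1) * b = 0
    rw [hb g hg hgN, sub_self]
  -- `z` depends on `π` only
  have hdep : ∀ g ∈ D, ∀ h ∈ D, π g = π h → z g = z h := by
    intro g hg h hh e
    have h1 : π (g⁻¹ * h) = 1 := by
      have h2 := hπ g hg (g⁻¹ * h) (D.mul_mem (D.inv_mem hg) hh)
      rw [mul_inv_cancel_left, ← e] at h2
      exact (left_eq_mul.1 h2)
    have h3 := hz g hg (g⁻¹ * h) (D.mul_mem (D.inv_mem hg) hh)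
    rw [mul_inv_cancel_left, hz0 _ (D.mul_mem (D.inv_mem hg) hh) (hN _ (D.mul_mem (D.inv_mem hg) hh) h1), mul_zero, add_zero] at h3
    exact h3.symm
  let zt : E → R := fun q => if h : ∃ t ∈ D, π t = q then z h.choose else 0
  have hzt : ∀ g ∈ D, zt (π g) = z g := by
    intro g hg
    have h : ∃ t ∈ D, π t = π g := ⟨g, hg, rfl⟩
    change (if h : ∃ t ∈ D, π t = π g then z h.choose else 0) = z g
    rw [dif_pos h]
    exact hdep _ h.choose_spec.1 _ hg h.choose_spec.2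
  have hsum : ∀ g ∈ D, ∑ q ∈ Finset.univ.filter (· ∈ E''), zt (π g * q) = ∑ q ∈ Finset.univ.filter (· ∈ E''), zt q := by
    intro g hg
    refine Finset.sum_bij' (fun q _ => π g * q) (fun q _ => (π g)⁻¹ * q) ?_ ?_ ?_ ?_ ?_
    · intro q hq
      simp only [Finset.mem_filter, Finset.mem_univ, true_and] at hq ⊢
      exact E''.mul_mem ⟨g, hg, rfl⟩ hq
    · intro q hq
      simp only [Finset.mem_filter, Finset.mem_univ, true_and] at hq ⊢
      exact E''.mul_mem (E''.inv_mem ⟨g, hg, rfl⟩) hq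
    · intro q _
      group
    · intro q _
      group
    · intro q _
      rfl
  have hkey : ∀ g ∈ D, ((Finset.univ.filter (· ∈ E'')).card : R) * z g =
      (1 - ψ g) * ∑ q ∈ Finset.univ.filter (· ∈ E''), zt q := by
    intro g hg
    have h1 : ∀ q ∈ Finset.univ.filter (· ∈ E''), zt (π g * q) = z g + ψ g * zt q := by
      intro q hq
      simp only [Finset.mem_filter, Finset.mem_univ, true_and] at hq
      obtain ⟨t, ht, rfl⟩ := hE q hq
      rw [← hπ g hg t ht, hzt _ (D.mul_mem hg ht), hzt t ht, hz g hg t ht]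
    have h2 := hsum g hg
    rw [Finset.sum_congr rfl h1, Finset.sum_add_distrib, Finset.sum_const, nsmul_eq_mul, ← Finset.mul_sum] at h2
    linear_combination h2
  have hcard : (Finset.univ.filter (· ∈ E'')).card ∣ Nat.card E := by
    have h1 := Subgroup.card_subgroup_dvd_card E''
    have h2 : Nat.card E'' = (Finset.univ.filter (· ∈ E'')).card := by
      rw [Nat.card_eq_fintype_card, Fintype.card_subtype]
    rwa [h2] at h1
  obtain ⟨k, hk⟩ := hcard
  refine ⟨Nat.card E * b - k * ∑ q ∈ Finset.univ.filter (· ∈ E''), zt q, fun g hg => ?_⟩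
  have h1 := hkey g hg
  have h2 : y g = z g + (ψ g - 1) * b := by
    change y g = (y g - (ψ g - 1) * b) + (ψ g - 1) * b
    ring
  have h3 : (Nat.card E : R) = ((Finset.univ.filter (· ∈ E'')).card : R) * k := by
    rw [hk]
    push_cast
    ring
  rw [h2]
  have h4 : (Nat.card E : R) * z g = k * ((1 - ψ g) * ∑ q ∈ Finset.univ.filter (· ∈ E''), zt q) := by
    rw [← h1, h3]
    ring
  linear_combination h4

namespace Dat

variable {E : Type} [Group E] (d : Dat G E)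

open Classical in
/-- the transfer, multiplied by the order of `E`, satisfies all conditions -/
theorem cores_cz [Fintype E] {ψ : G →* R} {𝒟 𝓘 : Set (Subgroup G)} (h𝒟 : Stab 𝒟) (h𝓘 : Stab 𝓘)
    (hN : IsOpen (d.H ⊥ : Set G)) (hI : ∀ I ∈ 𝓘, I ≤ d.H ⊥) (E' : Subgroup E)
    {c : G → R} (hc : Cz ψ 𝒟 𝓘 (d.H ⊥) c) :
    Cz ψ 𝒟 𝓘 (d.H E') (fun g => (Nat.card E : R) * d.cores ψ E' c g) := by
  have hmul := fun {g h : G} (hg : g ∈ d.H E') (hh : h ∈ d.H E') => d.cores_mul (ψ := ψ) (c := c) hc.mul hg hh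
  refine ⟨?_, ?_, ?_, ?_⟩
  · -- continuity
    have h1 : ContinuousOn (fun n => d.cores ψ E' c n) (d.H ⊥ : Set G) := by
      have h2 : Set.EqOn (fun n => d.cores ψ E' c n)
          (fun n => ∑ q ∈ Finset.univ.filter (· ∈ E'), ψ (d.s q) * c ((d.s q)⁻¹ * n * d.s q)) (d.H ⊥ : Set G) :=
        fun n hn => d.cores_bot hn
      refine ContinuousOn.congr ?_ h2
      refine continuousOn_finsetSum _ fun q _ => ?_
      refine ContinuousOn.mul continuousOn_const ?_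
      refine hc.cont.comp (by fun_prop) ?_
      intro n hn
      exact d.conj_bot hn (d.sU q)
    refine ContinuousOn.mul continuousOn_const ?_
    intro h0 hh0
    have h3 : ContinuousAt (fun n => d.cores ψ E' c n) 1 := h1.continuousAt (hN.mem_nhds (d.H ⊥).one_mem)
    have h4 : ContinuousAt (fun g => d.cores ψ E' c h0 + ψ h0 * d.cores ψ E' c (h0⁻¹ * g)) h0 := by
      refine continuousAt_const.add (continuousAt_const.mul ?_)
      have h5 : ContinuousAt (fun g : G => h0⁻¹ * g) h0 := by fun_prop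
      have h6 : ContinuousAt (fun n => d.cores ψ E' c n) (h0⁻¹ * h0) := by rwa [inv_mul_cancel]
      exact ContinuousAt.comp (f := fun g : G => h0⁻¹ * g) (g := fun n => d.cores ψ E' c n) h6 h5
    refine (h4.congr ?_).continuousWithinAt
    have h7 : {g : G | h0⁻¹ * g ∈ d.H ⊥} ∈ 𝓝 h0 := by
      have h8 : Continuous (fun g : G => h0⁻¹ * g) := by fun_prop
      refine (hN.preimage h8).mem_nhds ?_
      change h0⁻¹ * h0 ∈ d.H ⊥
      rw [inv_mul_cancel]
      exact (d.H ⊥).one_mem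
    filter_upwards [h7] with g hg
    have h9 := hmul hh0 (d.bot_le E' hg)
    rw [mul_inv_cancel_left] at h9
    exact h9.symm
  · intro g hg h hh
    rw [hmul hg hh]
    ring
  · intro I hIm g hg _
    have h1 := hI I hIm hg
    change (Nat.card E : R) * d.cores ψ E' c g = 0
    rw [d.cores_bot h1, Finset.sum_eq_zero, mul_zero]
    intro q _
    obtain ⟨I', hI', h2⟩ := h𝓘 I hIm (d.s q)
    rw [hc.unr I' hI' _ (h2 g hg) (d.conj_bot h1 (d.sU q)), mul_zero]
  · intro D hD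
    have h1 : ∀ q : E, ∃ b, ∀ g ∈ D, g ∈ d.H ⊥ → c ((d.s q)⁻¹ * g * d.s q) = (ψ g - 1) * b := by
      intro q
      obtain ⟨D', hD', h2⟩ := h𝒟 D hD (d.s q)
      obtain ⟨b, hb⟩ := hc.loc D' hD'
      refine ⟨b, fun g hg hgN => ?_⟩
      rw [hb _ (h2 g hg) (d.conj_bot hgN (d.sU q)), psi_conj]
    choose b hb using h1
    obtain ⟨b', hb'⟩ := fin_kill (E := E) (ψ := ψ) (D := D ⊓ d.H E') (N := d.H ⊥) (π := d.π)
      (fun g hg h hh => d.mul g hg.2.1 h hh.2.1) (fun g hg h1 => d.mem_bot.2 ⟨hg.2.1, h1⟩)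
      (y := d.cores ψ E' c) (fun g hg h hh => hmul hg.2 hh.2)
      (b := ∑ q ∈ Finset.univ.filter (· ∈ E'), ψ (d.s q) * b q) (fun g hg hgN => by
        rw [d.cores_bot hgN, Finset.mul_sum]
        refine Finset.sum_congr rfl fun q _ => ?_
        rw [hb q g hg.1 hgN]
        ring)
    exact ⟨b', fun g hg hgH => hb' g ⟨hg, hgH⟩⟩

open Classical in
/-- main abstract theorem -/
theorem main [Finite E] {ψ : G →* R} {𝒟 𝓘 : Set (Subgroup G)} (h𝒟 : Stab 𝒟) (h𝓘 : Stab 𝓘)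
    (hN : IsOpen (d.H ⊥ : Set G)) (hI : ∀ I ∈ 𝓘, I ≤ d.H ⊥)
    (htor : ∃ D ∈ 𝒟, ∃ g ∈ D, g ∈ d.H ⊥ ∧ ψ g ≠ 1)
    (E0 : Subgroup E) {q q' : ℕ} (hq : q.Prime) (hq' : q'.Prime) (hcard : Nat.card E0 = q * q') (hnc : ¬ IsCyclic E0)
    (hz : ∀ E' : Subgroup E, E' ≠ ⊥ → Zero ψ 𝒟 𝓘 (d.H E')) : Zero ψ 𝒟 𝓘 (d.H ⊥) := by
  intro c hc
  have : Fintype E := Fintype.ofFinite E
  obtain ⟨𝓟, k, hk, h𝓟, hpar⟩ := par E0 hq hq' hcard hnc
  have h1 : ∀ E' : Subgroup E, E' ≠ ⊥ → ∃ b, ∀ n ∈ d.H ⊥,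
      (Nat.card E : R) * ∑ q ∈ Finset.univ.filter (· ∈ E'), ψ (d.s q) * c ((d.s q)⁻¹ * n * d.s q) = (ψ n - 1) * b := by
    intro E' hE'
    obtain ⟨b, hb⟩ := hz E' hE' _ (d.cores_cz h𝒟 h𝓘 hN hI E' hc)
    refine ⟨b, fun n hn => ?_⟩
    rw [← hb n (d.bot_le E' hn), d.cores_bot hn]
  have hE0 : E0 ≠ ⊥ := by
    rintro rfl
    rw [Subgroup.card_bot] at hcard
    have h2 := hq.two_le
    have h3 := hq'.two_le
    nlinarith
  obtain ⟨b0, hb0⟩ := h1 E0 hE0
  have h2 : ∀ E' : Subgroup E, ∃ b, E' ∈ 𝓟 → ∀ n ∈ d.H ⊥,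
      (Nat.card E : R) * ∑ q ∈ Finset.univ.filter (· ∈ E'), ψ (d.s q) * c ((d.s q)⁻¹ * n * d.s q) = (ψ n - 1) * b := by
    intro E'
    by_cases h : E' ∈ 𝓟
    · obtain ⟨b, hb⟩ := h1 E' (h𝓟 E' h).2
      exact ⟨b, fun _ => hb⟩
    · exact ⟨0, fun h' => absurd h' h⟩
  choose b hb using h2
  -- a multiple of `c` is a coboundary
  have h3 : ∀ n ∈ d.H ⊥, ((Nat.card E : R) * k) * c n = (ψ n - 1) * (∑ E' ∈ 𝓟, b E' - b0) := by
    intro n hn
    have h4 := hpar R (fun q => ψ (d.s q) * c ((d.s q)⁻¹ * n * d.s q))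
    simp only [d.s1, map_one, one_mul, inv_one, mul_one, nsmul_eq_mul] at h4
    have h5 := hb0 n hn
    have h6 : ∑ E' ∈ 𝓟, ((Nat.card E : R) * ∑ q ∈ Finset.univ.filter (· ∈ E'), ψ (d.s q) * c ((d.s q)⁻¹ * n * d.s q)) =
        ∑ E' ∈ 𝓟, (ψ n - 1) * b E' := Finset.sum_congr rfl fun E' hE' => hb E' hE' n hn
    rw [← Finset.mul_sum, ← Finset.mul_sum, h4] at h6
    linear_combination h6 - h5
  obtain ⟨D, hD, g0, hg0, hg0N, hψ0⟩ := htor
  obtain ⟨bD, hbD⟩ := hc.loc D hD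
  have h7 : (∑ E' ∈ 𝓟, b E' - b0) = ((Nat.card E : R) * k) * bD := by
    have h8 := h3 g0 hg0N
    rw [hbD g0 hg0 hg0N] at h8
    have h9 : ψ g0 - 1 ≠ 0 := sub_ne_zero.2 hψ0
    apply mul_left_cancel₀ h9
    linear_combination -h8
  have h10 : ((Nat.card E : R) * k) ≠ 0 := by
    refine mul_ne_zero ?_ ?_
    · exact_mod_cast Nat.card_pos.ne'
    · exact_mod_cast hk.ne'
  refine ⟨bD, fun n hn => ?_⟩
  apply mul_left_cancel₀ h10
  rw [h3 n hn, h7]
  ring

end Dat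

end Pool.Agent.H74.SC
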