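import Pool.Agent.H74.SC.Ac

/-!
Project SC (MP_335839_SC), helper74: the module of classes and the reduction to its fixed vectors.
-/

set_option autoImplicit false
set_option linter.unusedSectionVars false

open Topology

namespace Pool.Agent.H74.SC

variable {G : Type} [Group G] [TopologicalSpace G] [IsTopologicalGroup G]
  {R : Type} [CommRing R] [IsDomain R] [CharZero R] [TopologicalSpace R] [IsTopologicalRing R]

/-- vanishing passes from `H1` to a bigger group `H2` if `H1` contains a subgroup normalised by `H2` with `ψ ≠ 1` -/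
theorem descend2 {ψ : G →* R} {𝒟 𝓘 : Set (Subgroup G)} {N H1 H2 : Subgroup G} (hN : N ≤ H1) (h12 : H1 ≤ H2)
    (hn : ∀ h ∈ H2, ∀ n ∈ N, h⁻¹ * n * h ∈ N) (hψ : ∃ n ∈ N, ψ n ≠ 1) (hz : Zero ψ 𝒟 𝓘 H1) : Zero ψ 𝒟 𝓘 H2 := by
  intro c hc
  obtain ⟨b, hb⟩ := hz c ⟨hc.cont.mono h12, fun g hg h hh => hc.mul g (h12 hg) h (h12 hh),
    fun I hI g hg hgN => hc.unr I hI g hg (h12 hgN), fun D hD => by
      obtain ⟨b, hb⟩ := hc.loc D hD
      exact ⟨b, fun g hg hgN => hb g hg (h12 hgN)⟩⟩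
  refine ⟨b, fun g hg => ?_⟩
  obtain ⟨n, hn1, hn2⟩ := hψ
  have h1 := hc.mul n (h12 (hN hn1)) g hg
  have h2 := hc.mul g hg (g⁻¹ * n * g) (h12 (hN (hn g hg n hn1)))
  have h3 : n * g = g * (g⁻¹ * n * g) := by group
  rw [h3, h2, hb _ (hN (hn g hg n hn1)), hb n (hN hn1), psi_conj] at h1
  have h5 : (ψ n - 1) * (c g - (ψ g - 1) * b) = 0 := by linear_combination -h1
  rcases mul_eq_zero.1 h5 with h6 | h6
  · exact absurd (sub_eq_zero.1 h6) hn2
  · exact sub_eq_zero.1 h6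

namespace Dat

variable {E : Type} [Group E] (d : Dat G E)

open Classical in
/-- the transfer, multiplied by the order of `E`, satisfies all conditions; `ψ = 1` on the inertia groups -/
theorem cores_cz2 [Fintype E] {ψ : G →* R} {𝒟 𝓘 : Set (Subgroup G)} (h𝒟 : Stab 𝒟) (h𝓘 : Stab 𝓘)
    (hN : IsOpen (d.H ⊥ : Set G)) (hI : ∀ I ∈ 𝓘, ∀ g ∈ I, ψ g = 1) (E' : Subgroup E)
    {c : G → R} (hc : Cz ψ 𝒟 𝓘 (d.H ⊥) c) :
    Cz ψ 𝒟 𝓘 (d.H E') (fun g => (Nat.card E : R) * d.cores ψ E' c g) := by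
  have hmul := fun {g h : G} (hg : g ∈ d.H E') (hh : h ∈ d.H E') => d.cores_mul (ψ := ψ) (c := c) hc.mul hg hh
  refine ⟨?_, ?_, ?_, ?_⟩
  · -- continuity
    have h1 : ContinuousOn (fun n => d.cores ψ E' c n) (d.H ⊥ : Set G) := by
      have h2 : Set.EqOn (fun n => d.cores ψ E' c n)
          (fun n => ∑ q ∈ Finset.univ.filter (· ∈ E'), ψ (d.s q) * c ((d.s q)⁻¹ * n * d.s q)) (d.H ⊥ : Set G) :=
        fun n hn => d.cores_bot hn
      refine ContinuousOn.congr ?_ h2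
      refine continuousOn_finsetSum _ fun q _ => ?_
      refine ContinuousOn.mul continuousOn_const ?_
      refine hc.cont.comp (by fun_prop) ?_
      intro n hn
      exact d.conj_bot hn (d.sU q)
    refine ContinuousOn.mul continuousOn_const ?_
    intro h0 hh0
    have h3 : ContinuousAt (fun n => d.cores ψ E' c n) 1 := h1.continuousAt (hN.mem_nhds (d.H ⊥).one_mem)
    have h4 : ContinuousAt (fun g => d.cores ψ E' c h0 + ψ h0 * d.cores ψ E' c (h0⁻¹ * g)) h0 := by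
      refine continuousAt_const.add (continuousAt_const.mul ?_)
      have h5 : ContinuousAt (fun g : G => h0⁻¹ * g) h0 := by fun_prop
      have h6 : ContinuousAt (fun n => d.cores ψ E' c n) (h0⁻¹ * h0) := by rwa [inv_mul_cancel]
      exact ContinuousAt.comp (f := fun g : G => h0⁻¹ * g) (g := fun n => d.cores ψ E' c n) h6 h5
    refine (h4.congr ?_).continuousWithinAt
    have h7 : {g : G | h0⁻¹ * g ∈ d.H ⊥} ∈ 𝓝 h0 := by
      have h8 : Continuous (fun g : G => h0⁻¹ * g) := by fun_prop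
      refine (hN.preimage h8).mem_nhds ?_
      change h0⁻¹ * h0 ∈ d.H ⊥
      rw [inv_mul_cancel]
      exact (d.H ⊥).one_mem
    filter_upwards [h7] with g hg
    have h9 := hmul hh0 (d.bot_le E' hg)
    rw [mul_inv_cancel_left] at h9
    exact h9.symm
  · intro g hg h hh
    rw [hmul hg hh]
    ring
  · intro I hIm g hg hgH
    have hψg := hI I hIm g hg
    have h1 : ∀ k : ℕ, d.cores ψ E' c (g ^ k) = k * d.cores ψ E' c g := by
      intro k
      induction k with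
      | zero =>
        rw [pow_zero]
        have h2 := hmul (d.H E').one_mem (d.H E').one_mem
        simp at h2
        rw [h2]
        simp
      | succ k ih =>
        rw [pow_succ', hmul hgH ((d.H E').pow_mem hgH k), ih, hψg]
        push_cast
        ring
    have h2 : g ^ Nat.card E ∈ d.H ⊥ := by
      rw [mem_bot]
      refine ⟨d.U.pow_mem hgH.1 _, ?_⟩
      have h3 : ∀ k : ℕ, d.π (g ^ k) = (d.π g) ^ k := by
        intro k
        induction k with
        | zero => rw [pow_zero, pow_zero, d.π_one]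
        | succ k ih => rw [pow_succ, pow_succ, d.mul _ (d.U.pow_mem hgH.1 k) _ hgH.1, ih]
      rw [h3, pow_card_eq_one']
    have h4 : d.cores ψ E' c (g ^ Nat.card E) = 0 := by
      rw [d.cores_bot h2, Finset.sum_eq_zero]
      intro q _
      obtain ⟨I', hI', h5⟩ := h𝓘 I hIm (d.s q)
      rw [hc.unr I' hI' _ (h5 _ (I.pow_mem hg _)) (d.conj_bot h2 (d.sU q)), mul_zero]
    change (Nat.card E : R) * d.cores ψ E' c g = 0
    rw [← h1, h4]
  · intro D hD
    have h1 : ∀ q : E, ∃ b, ∀ g ∈ D, g ∈ d.H ⊥ → c ((d.s q)⁻¹ * g * d.s q) = (ψ g - 1) * b := by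
      intro q
      obtain ⟨D', hD', h2⟩ := h𝒟 D hD (d.s q)
      obtain ⟨b, hb⟩ := hc.loc D' hD'
      refine ⟨b, fun g hg hgN => ?_⟩
      rw [hb _ (h2 g hg) (d.conj_bot hgN (d.sU q)), psi_conj]
    choose b hb using h1
    obtain ⟨b', hb'⟩ := fin_kill (E := E) (ψ := ψ) (D := D ⊓ d.H E') (N := d.H ⊥) (π := d.π)
      (fun g hg h hh => d.mul g hg.2.1 h hh.2.1) (fun g hg h1 => d.mem_bot.2 ⟨hg.2.1, h1⟩)
      (y := d.cores ψ E' c) (fun g hg h hh => hmul hg.2 hh.2)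
      (b := ∑ q ∈ Finset.univ.filter (· ∈ E'), ψ (d.s q) * b q) (fun g hg hgN => by
        rw [d.cores_bot hgN, Finset.mul_sum]
        refine Finset.sum_congr rfl fun q _ => ?_
        rw [hb q g hg.1 hgN]
        ring)
    exact ⟨b', fun g hg hgH => hb' g ⟨hg, hgH⟩⟩

end Dat

section Module

variable (ψ : G →* R) (𝒟 𝓘 : Set (Subgroup G)) (N : Subgroup G)

/-- the cocycles -/
def Zc : AddSubgroup (G → R) where
  carrier := {c | Cz ψ 𝒟 𝓘 N c}
  zero_mem' := ⟨continuousOn_const, fun _ _ _ _ => by simp, fun _ _ _ _ _ => rfl, fun _ _ => ⟨0, fun _ _ _ => by simp⟩⟩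
  add_mem' := by
    intro a b ha hb
    refine ⟨ha.cont.add hb.cont, fun g hg h hh => ?_, fun I hI g hg hgN => ?_, fun D hD => ?_⟩
    · change a (g * h) + b (g * h) = (a g + b g) + ψ g * (a h + b h)
      rw [ha.mul g hg h hh, hb.mul g hg h hh]
      ring
    · change a g + b g = 0
      rw [ha.unr I hI g hg hgN, hb.unr I hI g hg hgN, add_zero]
    · obtain ⟨x, hx⟩ := ha.loc D hD
      obtain ⟨y, hy⟩ := hb.loc D hD
      refine ⟨x + y, fun g hg hgN => ?_⟩
      change a g + b g = _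
      rw [hx g hg hgN, hy g hg hgN]
      ring
  neg_mem' := by
    intro a ha
    refine ⟨ha.cont.neg, fun g hg h hh => ?_, fun I hI g hg hgN => ?_, fun D hD => ?_⟩
    · change -a (g * h) = -a g + ψ g * (-a h)
      rw [ha.mul g hg h hh]
      ring
    · change -a g = 0
      rw [ha.unr I hI g hg hgN, neg_zero]
    · obtain ⟨x, hx⟩ := ha.loc D hD
      refine ⟨-x, fun g hg hgN => ?_⟩
      change -a g = _
      rw [hx g hg hgN]
      ring

/-- the coboundaries (and the functions vanishing on `N`) -/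
def Bc : AddSubgroup (Zc ψ 𝒟 𝓘 N) where
  carrier := {c | ∃ b, ∀ g ∈ N, (c : G → R) g = (ψ g - 1) * b}
  zero_mem' := ⟨0, fun _ _ => by simp⟩
  add_mem' := by
    rintro a b ⟨x, hx⟩ ⟨y, hy⟩
    refine ⟨x + y, fun g hg => ?_⟩
    change (a : G → R) g + (b : G → R) g = _
    rw [hx g hg, hy g hg]
    ring
  neg_mem' := by
    rintro a ⟨x, hx⟩
    refine ⟨-x, fun g hg => ?_⟩
    change -(a : G → R) g = _
    rw [hx g hg]
    ring

variable {ψ 𝒟 𝓘 N}

/-- the action of an element of the group on cocycles -/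
def actZ (h𝒟 : Stab 𝒟) (h𝓘 : Stab 𝓘) (hN : N.Normal) (t : G) : Zc ψ 𝒟 𝓘 N →+ Zc ψ 𝒟 𝓘 N where
  toFun c := ⟨fun g => ψ t * (c : G → R) (t⁻¹ * g * t), by
    have hc : Cz ψ 𝒟 𝓘 N (c : G → R) := c.2
    have hconj : ∀ g ∈ N, t⁻¹ * g * t ∈ N := fun g hg => by
      have h := hN.conj_mem g hg t⁻¹
      rwa [inv_inv] at h
    refine ⟨?_, fun g hg h hh => ?_, fun I hI g hg hgN => ?_, fun D hD => ?_⟩
    · refine ContinuousOn.mul continuousOn_const ?_
      exact hc.cont.comp (by fun_prop) hconj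
    · have e : t⁻¹ * (g * h) * t = (t⁻¹ * g * t) * (t⁻¹ * h * t) := by group
      change ψ t * (c : G → R) (t⁻¹ * (g * h) * t) = _
      rw [e, hc.mul _ (hconj g hg) _ (hconj h hh), psi_conj]
      ring
    · obtain ⟨I', hI', h1⟩ := h𝓘 I hI t
      rw [hc.unr I' hI' _ (h1 g hg) (hconj g hgN), mul_zero]
    · obtain ⟨D', hD', h1⟩ := h𝒟 D hD t
      obtain ⟨b, hb⟩ := hc.loc D' hD'
      refine ⟨ψ t * b, fun g hg hgN => ?_⟩
      rw [hb _ (h1 g hg) (hconj g hgN), psi_conj]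
      ring⟩
  map_zero' := by
    apply Subtype.ext
    funext g
    change ψ t * 0 = 0
    rw [mul_zero]
  map_add' a b := by
    apply Subtype.ext
    funext g
    change ψ t * ((a : G → R) (t⁻¹ * g * t) + (b : G → R) (t⁻¹ * g * t)) = _
    rw [mul_add]
    rfl

/-- the module of classes -/
abbrev Vm (ψ : G →* R) (𝒟 𝓘 : Set (Subgroup G)) (N : Subgroup G) : Type := Zc ψ 𝒟 𝓘 N ⧸ Bc ψ 𝒟 𝓘 N

/-- the action on classes -/
def actV (h𝒟 : Stab 𝒟) (h𝓘 : Stab 𝓘) (hN : N.Normal) (t : G) : Vm ψ 𝒟 𝓘 N →+ Vm ψ 𝒟 𝓘 N :=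
  QuotientAddGroup.map _ _ (actZ h𝒟 h𝓘 hN t) (by
    rintro c ⟨b, hb⟩
    refine ⟨ψ t * b, fun g hg => ?_⟩
    have hconj : t⁻¹ * g * t ∈ N := by
      have h := hN.conj_mem g hg t⁻¹
      rwa [inv_inv] at h
    change ψ t * (c : G → R) (t⁻¹ * g * t) = _
    rw [hb _ hconj, psi_conj]
    ring)

/-- the action on classes -/
@[implicit_reducible]
def actI (h𝒟 : Stab 𝒟) (h𝓘 : Stab 𝓘) (hN : N.Normal) : DistribMulAction G (Vm ψ 𝒟 𝓘 N) where
  smul t v := actV h𝒟 h𝓘 hN t v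
  one_smul v := by
    induction v using QuotientAddGroup.induction_on with
    | H c =>
      change QuotientAddGroup.mk (actZ h𝒟 h𝓘 hN 1 c) = QuotientAddGroup.mk c
      congr 1
      apply Subtype.ext
      funext g
      change ψ 1 * (c : G → R) (1⁻¹ * g * 1) = (c : G → R) g
      simp
  mul_smul t u v := by
    induction v using QuotientAddGroup.induction_on with
    | H c =>
      change QuotientAddGroup.mk (actZ h𝒟 h𝓘 hN (t * u) c) = QuotientAddGroup.mk (actZ h𝒟 h𝓘 hN t (actZ h𝒟 h𝓘 hN u c))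
      congr 1
      apply Subtype.ext
      funext g
      change ψ (t * u) * (c : G → R) ((t * u)⁻¹ * g * (t * u)) = ψ t * (ψ u * (c : G → R) (u⁻¹ * (t⁻¹ * g * t) * u))
      rw [map_mul, mul_assoc]
      congr 3
      group
  smul_zero t := map_zero _
  smul_add t v w := map_add _ v w

theorem act_triv (h𝒟 : Stab 𝒟) (h𝓘 : Stab 𝓘) (hN : N.Normal) {n : G} (hn : n ∈ N) (v : Vm ψ 𝒟 𝓘 N) :
    actV h𝒟 h𝓘 hN n v = v := by
  induction v using QuotientAddGroup.induction_on with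
  | H c =>
    change QuotientAddGroup.mk (actZ h𝒟 h𝓘 hN n c) = QuotientAddGroup.mk c
    rw [QuotientAddGroup.eq]
    have hc : Cz ψ 𝒟 𝓘 N (c : G → R) := c.2
    refine ⟨-(c : G → R) n, fun g hg => ?_⟩
    change -(ψ n * (c : G → R) (n⁻¹ * g * n)) + (c : G → R) g = _
    have h1 := hc.mul (n⁻¹ * g) (N.mul_mem (N.inv_mem hn) hg) n hn
    have h2 := hc.mul n⁻¹ (N.inv_mem hn) g hg
    have h3 := hc.mul n hn n⁻¹ (N.inv_mem hn)
    rw [mul_inv_cancel, coc_one hc.mul] at h3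
    have h4 : ψ n * ψ n⁻¹ = 1 := by rw [← map_mul, mul_inv_cancel, map_one]
    rw [h1, h2, map_mul]
    linear_combination h3 - ((c : G → R) g + ψ g * (c : G → R) n) * h4

open Classical in
/-- main abstract theorem: if every nonzero torsion-free `G`-module on which `N` acts trivially has a nonzero vector fixed by
a group `H ≥ N` with vanishing group, then the group of `N` vanishes -/
theorem mainW (h𝒟 : Stab 𝒟) (h𝓘 : Stab 𝓘) (hN : N.Normal) (hfi : N.FiniteIndex) (hNo : IsOpen (N : Set G))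
    (hI : ∀ I ∈ 𝓘, ∀ g ∈ I, ψ g = 1) (htor : ∃ D ∈ 𝒟, ∃ g ∈ D, g ∈ N ∧ ψ g ≠ 1)
    (hW : ∀ (W : Type) [AddCommGroup W] [DistribMulAction G W], (∀ (k : ℕ) (w : W), k ≠ 0 → k • w = 0 → w = 0) →
      (∀ n ∈ N, ∀ w : W, n • w = w) → (∃ w : W, w ≠ 0) →
      ∃ H : Subgroup G, N ≤ H ∧ Zero ψ 𝒟 𝓘 H ∧ ∃ w : W, w ≠ 0 ∧ ∀ h ∈ H, h • w = w) : Zero ψ 𝒟 𝓘 N := by
  obtain ⟨D, hD, g0, hg0, hg0N, hψ0⟩ := htor
  have h9 : ψ g0 - 1 ≠ 0 := sub_ne_zero.2 hψ0
  -- torsion-free
  have htf : ∀ (k : ℕ) (v : Vm ψ 𝒟 𝓘 N), k ≠ 0 → k • v = 0 → v = 0 := by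
    intro k v hk hv
    induction v using QuotientAddGroup.induction_on with
    | H c =>
      have h1 : k • c ∈ Bc ψ 𝒟 𝓘 N := (QuotientAddGroup.eq_zero_iff (k • c)).1 hv
      obtain ⟨b, hb⟩ := h1
      have hc : Cz ψ 𝒟 𝓘 N (c : G → R) := c.2
      obtain ⟨bD, hbD⟩ := hc.loc D hD
      have hb' : ∀ g ∈ N, (k : R) * (c : G → R) g = (ψ g - 1) * b := by
        intro g hg
        rw [← hb g hg]
        change _ = k • ((c : G → R) g)
        rw [nsmul_eq_mul]
      have h2 : b = k * bD := by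
        have h3 := hb' g0 hg0N
        rw [hbD g0 hg0 hg0N] at h3
        apply mul_left_cancel₀ h9
        linear_combination -h3
      refine (QuotientAddGroup.eq_zero_iff c).2 ⟨bD, fun g hg => ?_⟩
      have h4 : (k : R) ≠ 0 := by exact_mod_cast hk
      apply mul_left_cancel₀ h4
      rw [hb' g hg, h2]
      ring
  by_contra hnz
  unfold Zero at hnz
  push Not at hnz
  obtain ⟨c0, hc0, hc0'⟩ := hnz
  let _ := actI (ψ := ψ) h𝒟 h𝓘 hN
  have hne : ∃ v : Vm ψ 𝒟 𝓘 N, v ≠ 0 := by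
    refine ⟨QuotientAddGroup.mk (⟨c0, hc0⟩ : Zc ψ 𝒟 𝓘 N), fun h => ?_⟩
    obtain ⟨b, hb⟩ := (QuotientAddGroup.eq_zero_iff _).1 h
    obtain ⟨g, hg, hg'⟩ := hc0' b
    exact hg' (hb g hg)
  obtain ⟨H, hNH, hzH, w, hw, hfix⟩ := hW (Vm ψ 𝒟 𝓘 N) htf (fun n hn v => act_triv h𝒟 h𝓘 hN hn v) hne
  apply hw
  -- data for the quotient `G ⧸ N`
  let d : Dat G (G ⧸ N) := {
    U := ⊤
    π := fun g => QuotientGroup.mk g
    s := fun e => if e = 1 then 1 else Quotient.out e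
    mul := fun g _ h _ => rfl
    sU := fun _ => trivial
    πs := fun e => by
      by_cases he : e = 1
      · rw [if_pos he, he]
        rfl
      · rw [if_neg he]
        exact QuotientGroup.out_eq' e
    s1 := if_pos rfl }
  have hbot : d.H ⊥ = N := by
    ext g
    rw [d.mem_bot]
    change (g ∈ ⊤ ∧ (QuotientGroup.mk g : G ⧸ N) = 1) ↔ g ∈ N
    rw [QuotientGroup.eq_one_iff]
    simp
  have hfin : Finite (G ⧸ N) := Subgroup.finite_quotient_of_finiteIndex
  have : Fintype (G ⧸ N) := Fintype.ofFinite _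
  let E' : Subgroup (G ⧸ N) := H.map (QuotientGroup.mk' N)
  have hE' : d.H E' = H := by
    ext g
    constructor
    · rintro ⟨-, h, hh, hgh⟩
      have h1 : h⁻¹ * g ∈ N := QuotientGroup.eq.1 hgh
      have h2 : h * (h⁻¹ * g) ∈ H := H.mul_mem hh (hNH h1)
      rwa [mul_inv_cancel_left] at h2
    · intro hg
      exact ⟨trivial, g, hg, rfl⟩
  induction w using QuotientAddGroup.induction_on with
  | H c =>
    have hc : Cz ψ 𝒟 𝓘 (d.H ⊥) (c : G → R) := by
      rw [hbot]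
      exact c.2
    have h1 := d.cores_cz2 h𝒟 h𝓘 (by rw [hbot]; exact hNo) hI E' hc
    obtain ⟨b, hb⟩ := hzH _ (hE' ▸ h1)
    -- restrict to `N`
    have h2 : ∀ n ∈ N, (Nat.card (G ⧸ N) : R) *
        ∑ q ∈ Finset.univ.filter (· ∈ E'), ψ (d.s q) * (c : G → R) ((d.s q)⁻¹ * n * d.s q) = (ψ n - 1) * b := by
      intro n hn
      rw [← hb n (hNH hn), d.cores_bot (by rw [hbot]; exact hn)]
    -- in the module
    have h3 : (Nat.card (G ⧸ N)) • ∑ q ∈ Finset.univ.filter (· ∈ E'),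
        actV h𝒟 h𝓘 hN (d.s q) (QuotientAddGroup.mk c : Vm ψ 𝒟 𝓘 N) = 0 := by
      have h4 : (Nat.card (G ⧸ N)) • ∑ q ∈ Finset.univ.filter (· ∈ E'),
          actV h𝒟 h𝓘 hN (d.s q) (QuotientAddGroup.mk c : Vm ψ 𝒟 𝓘 N) =
          QuotientAddGroup.mk ((Nat.card (G ⧸ N)) • ∑ q ∈ Finset.univ.filter (· ∈ E'), actZ h𝒟 h𝓘 hN (d.s q) c) := by
        rw [QuotientAddGroup.mk_nsmul]
        congr 1
        exact (map_sum (QuotientAddGroup.mk' (Bc ψ 𝒟 𝓘 N)) _ _).symm
      rw [h4]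
      refine (QuotientAddGroup.eq_zero_iff _).2 ⟨b, fun n hn => ?_⟩
      rw [← h2 n hn, AddSubgroup.coe_nsmul, Pi.smul_apply, nsmul_eq_mul, AddSubgroup.val_finsetSum, Finset.sum_apply]
      rfl
    have h5 : ∀ q ∈ Finset.univ.filter (· ∈ E'),
        actV h𝒟 h𝓘 hN (d.s q) (QuotientAddGroup.mk c : Vm ψ 𝒟 𝓘 N) = QuotientAddGroup.mk c := by
      intro q hq
      simp only [Finset.mem_filter, Finset.mem_univ, true_and] at hq
      refine hfix (d.s q) ?_
      rw [← hE']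
      exact ⟨trivial, by rw [d.πs]; exact hq⟩
    rw [Finset.sum_congr rfl h5, Finset.sum_const, smul_smul] at h3
    refine htf _ _ ?_ h3
    refine mul_ne_zero Nat.card_pos.ne' ?_
    refine (Finset.card_pos.2 ⟨1, ?_⟩).ne'
    simp only [Finset.mem_filter, Finset.mem_univ, true_and]
    exact E'.one_mem

end Module

end Pool.Agent.H74.SC
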