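import Pool.Agent.H74.SC.Defs

/-!
ROW SC/Com (helper74, project MP_335839_SC). The decomposition group modulo the inertia group is commutative.

PROOF. `k = Zb K ⧸ P` is a field (`P` is maximal: `Zb K` is integral over `ℤ`, `P ≠ 0`), algebraic over its prime field `F_ℓ`. `g`, `h` in the stabilizer of `P` induce automorphisms `g'`, `h'` of
`k` (`Ideal.Quotient.stabilizerHom` or `Ideal.quotientEquiv`). Claim: `g' (h' x) = h' (g' x)` for all `x ∈ k`. `x` lies in a finite field: its conjugates over `F_ℓ` are the `x^(ℓ^i)`, so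
`g' x = x^(ℓ^i)` for some `i`, `h' x = x^(ℓ^j)`; then `g' (h' x) = (g' x)^(ℓ^j) = x^(ℓ^(i+j)) = h' (g' x)`. For `g' x = x^(ℓ^i)`: `F_ℓ(x)` is a finite field, normal over `F_ℓ`, so stable under
`g'`, and its automorphisms are the powers of Frobenius (`FiniteField`: `bijective_frobeniusAlgEquivOfAlgebraic_pow` or similar); or: the polynomial `∏_(i<n) (X - x^(ℓ^i))`, `n` minimal with
`x^(ℓ^n) = x`, is fixed by Frobenius, so has coefficients in `F_ℓ`, and `g' x` is a root of it.
Then for `x ∈ Zb K`: `(g⁻¹ h⁻¹ g h) x - x ∈ P`: apply the claim to `x` and use that `g⁻¹`, `h⁻¹` preserve `P`.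
-/

set_option autoImplicit false
set_option synthInstance.maxHeartbeats 400000

open scoped Pointwise NumberField

namespace Pool.Agent.H74.SC

variable {K : Type} [Field K] [NumberField K]

private theorem com_pow (F k : Type) [Field F] [Finite F] [Field k] [Algebra F k] [Algebra.IsAlgebraic F k] (s : k ≃ₐ[F] k) (x : k) :
    ∃ n : ℕ, s x = x ^ (Nat.card F ^ n) := by
  classical
  have hx : IsIntegral F x := Algebra.IsIntegral.isIntegral x
  let E : IntermediateField F k := IntermediateField.adjoin F {x}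
  haveI : FiniteDimensional F E := IntermediateField.adjoin.finiteDimensional hx
  haveI : Finite E := Module.finite_of_finite F
  haveI : Fintype F := Fintype.ofFinite F
  let t : E ≃ₐ[F] E := s.restrictNormal E
  obtain ⟨⟨i, hi⟩, hi2⟩ := (FiniteField.bijective_frobeniusAlgEquivOfAlgebraic_pow F E).2 t
  refine ⟨i, ?_⟩
  let y : E := ⟨x, IntermediateField.mem_adjoin_simple_self F x⟩
  have h1 : algebraMap E k (t y) = s (algebraMap E k y) := AlgEquiv.restrictNormal_commutes s E y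
  have h2 : t y = y ^ (Fintype.card F ^ i) := by
    rw [← hi2]
    simp only [AlgEquiv.coe_pow]
    rw [FiniteField.coe_frobeniusAlgEquivOfAlgebraic_iterate]
  have h3 : s x = algebraMap E k (y ^ (Fintype.card F ^ i)) := by
    rw [← h2, h1]; rfl
  rw [h3, Nat.card_eq_fintype_card, map_pow]
  rfl

private theorem com_comm (F k : Type) [Field F] [Finite F] [Field k] [Algebra F k] [Algebra.IsAlgebraic F k] (s t : k ≃ₐ[F] k) (x : k) :
    s (t x) = t (s x) := by
  obtain ⟨i, hi⟩ := com_pow F k s x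
  obtain ⟨j, hj⟩ := com_pow F k t x
  rw [hj, map_pow, hi, map_pow, hj, ← pow_mul, ← pow_mul, mul_comm]

theorem comm_inertia {P : Ideal (Zb K)} (hP : P.IsPrime) (hP0 : P ≠ ⊥) {g h : Gal(AlgebraicClosure K/K)}
    (hg : g ∈ MulAction.stabilizer Gal(AlgebraicClosure K/K) P) (hh : h ∈ MulAction.stabilizer Gal(AlgebraicClosure K/K) P) :
    g⁻¹ * h⁻¹ * g * h ∈ P.inertia Gal(AlgebraicClosure K/K) := by
  classical
  -- the prime number below
  have hcom : P.comap (algebraMap ℤ (Zb K)) ≠ ⊥ := by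
    obtain ⟨x, hx, hx0⟩ := Submodule.exists_mem_ne_zero_of_ne_bot hP0
    exact Ideal.comap_ne_bot_of_integral_mem hx0 hx (Algebra.IsIntegral.isIntegral x)
  haveI := hP
  haveI : (P.comap (algebraMap ℤ (Zb K))).IsPrime := Ideal.comap_isPrime _ _
  have hmax0 : (P.comap (algebraMap ℤ (Zb K))).IsMaximal := Ideal.IsPrime.isMaximal inferInstance hcom
  have hmax : P.IsMaximal := Ideal.isMaximal_of_isIntegral_of_isMaximal_comap P hmax0
  letI : Field (Zb K ⧸ P) := Ideal.Quotient.field P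
  obtain ⟨l, hl⟩ : ∃ l : ℕ, CharP (Zb K ⧸ P) l := CharP.exists _
  have hl0 : l ≠ 0 := by
    rintro rfl
    obtain ⟨n, hn, hn0⟩ := Submodule.exists_mem_ne_zero_of_ne_bot hcom
    have h1 : (Ideal.Quotient.mk P) (algebraMap ℤ (Zb K) n) = 0 := Ideal.Quotient.eq_zero_iff_mem.2 hn
    have h2 : ((n : ℤ) : Zb K ⧸ P) = 0 := by
      rw [← h1]; simp
    have h3 := (CharP.intCast_eq_zero_iff (Zb K ⧸ P) 0 n).1 h2
    exact hn0 (by simpa using h3)
  haveI : Fact l.Prime := ⟨(CharP.char_is_prime_or_zero (Zb K ⧸ P) l).resolve_right hl0⟩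
  letI : Algebra (ZMod l) (Zb K ⧸ P) := ZMod.algebra _ l
  haveI : Algebra.IsAlgebraic (ZMod l) (Zb K ⧸ P) := by
    refine ⟨fun x => ?_⟩
    obtain ⟨y, rfl⟩ := Ideal.Quotient.mk_surjective x
    have hy : IsIntegral ℤ y := Algebra.IsIntegral.isIntegral y
    have hy2 : IsIntegral ℤ (Ideal.Quotient.mk P y) := hy.map (Ideal.Quotient.mk P).toIntAlgHom
    obtain ⟨f, hf, hf2⟩ := hy2
    refine IsIntegral.isAlgebraic ⟨f.map (Int.castRingHom (ZMod l)), hf.map _, ?_⟩
    rw [Polynomial.eval₂_map]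
    have : (algebraMap (ZMod l) (Zb K ⧸ P)).comp (Int.castRingHom (ZMod l)) = algebraMap ℤ (Zb K ⧸ P) := Subsingleton.elim _ _
    rw [this]; exact hf2
  -- the induced automorphisms
  have key : ∀ u : Gal(AlgebraicClosure K/K), u ∈ MulAction.stabilizer Gal(AlgebraicClosure K/K) P →
      ∃ s : (Zb K ⧸ P) ≃ₐ[ZMod l] (Zb K ⧸ P), ∀ x : Zb K, s (Ideal.Quotient.mk P x) = Ideal.Quotient.mk P (u • x) := by
    intro u hu
    have hmap : P = Ideal.map (MulSemiringAction.toRingEquiv Gal(AlgebraicClosure K/K) (Zb K) u : Zb K →+* Zb K) P := by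
      have : u • P = P := hu
      conv_lhs => rw [← this]
      rfl
    let e : (Zb K ⧸ P) ≃+* (Zb K ⧸ P) := Ideal.quotientEquiv P P (MulSemiringAction.toRingEquiv Gal(AlgebraicClosure K/K) (Zb K) u) hmap
    refine ⟨AlgEquiv.ofRingEquiv (f := e) fun c => ?_, fun x => ?_⟩
    · obtain ⟨c, rfl⟩ := ZMod.intCast_surjective c
      simp
    · rfl
  obtain ⟨s, hs⟩ := key g hg
  obtain ⟨t, ht⟩ := key h hh
  have hstab : ∀ u : Gal(AlgebraicClosure K/K), u ∈ MulAction.stabilizer Gal(AlgebraicClosure K/K) P → ∀ x : Zb K, x ∈ P → u⁻¹ • x ∈ P := by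
    intro u hu x hx
    have h1 : u⁻¹ • P = P := (MulAction.stabilizer Gal(AlgebraicClosure K/K) P).inv_mem hu
    rw [← h1]
    exact Ideal.smul_mem_pointwise_smul _ _ _ hx
  intro x
  have h1 : Ideal.Quotient.mk P (g • h • x) = Ideal.Quotient.mk P (h • g • x) := by
    rw [← hs, ← ht, ← ht, ← hs]
    exact com_comm (ZMod l) (Zb K ⧸ P) s t _
  have h2 : g • h • x - h • g • x ∈ P := Ideal.Quotient.eq.1 h1
  have h3 := hstab g hg _ (hstab h hh _ h2)
  have h4 : g⁻¹ • h⁻¹ • (g • h • x - h • g • x) = (g⁻¹ * h⁻¹ * g * h) • x - x := by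
    rw [smul_sub, smul_sub, inv_smul_smul, inv_smul_smul, mul_smul, mul_smul, mul_smul]
  rw [h4] at h3
  exact h3

end Pool.Agent.H74.SC
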