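import Pool.Agent.H74.SC.Defs

/-!
ROW SC/Cyc (helper74, project MP_335839_SC). Three facts on `p^n`-th roots of unity in the algebraic closure `Ω` of a number field.

PROOFS. `cyc_conj`: `ζ` and `ζ^(1+p)` are primitive `p^n`-th roots of unity (`IsPrimitiveRoot.pow_of_coprime`), both have minimal polynomial `cyclotomic (p^n) ℚ`
(`Polynomial.cyclotomic_eq_minpoly_rat`), so they are conjugate: `isConjRoot_iff_exists_algEquiv` (`Ω/ℚ` is normal: `Ω` is algebraically closed and algebraic over `ℚ`;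
`IsAlgClosure`, `Algebra.IsAlgebraic.trans ℚ K Ω`).
`cyc_mem`: an algebraic integer `x` in `ℚ(ζ)` lies in `ℤ[ζ]`: `IsCyclotomicExtension.Rat.isIntegralClosure_adjoin_singleton_of_prime_pow` for the field `ℚ⟮ζ⟯`
(cyclotomic extension `{p^n}` of `ℚ`: `IsPrimitiveRoot.intermediateField_adjoin_isCyclotomicExtension`), then map to `Ω`.
`cyc_prime`: `(ζ - 1)^(p^n) ≡ ζ^(p^n) - 1 = 0` mod `p` (`sub_pow_char_pow`-like in `Zb ⧸ P` which has characteristic `p`), so `ζ - 1 ∈ P`; write `x = f(ζ)`, `f ∈ ℤ[X]`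
(`Algebra.adjoin_singleton_eq_range_aeval`), `f(ζ) ≡ f(1)` mod `P`; `f(1)` is an integer and an integer is in `P` iff `p` divides it (`P` prime, `p ∈ P`, `1 ∉ P`).
So membership of `x` in `P` depends on `f(1)` only.
-/

set_option autoImplicit false
set_option linter.unusedSectionVars false

open scoped Pointwise NumberField

namespace Pool.Agent.H74.SC

variable {K : Type} [Field K] [NumberField K]

private theorem cyc_alg : Algebra.IsAlgebraic ℚ (AlgebraicClosure K) :=
  Algebra.IsAlgebraic.trans ℚ K (AlgebraicClosure K)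

theorem cyc_conj {p n : ℕ} (hp : p.Prime) {ζ : AlgebraicClosure K} (hζ : IsPrimitiveRoot ζ (p ^ n)) :
    ∃ σ : Gal(AlgebraicClosure K/ℚ), σ ζ = ζ ^ (1 + p) := by
  have halg : Algebra.IsAlgebraic ℚ (AlgebraicClosure K) := cyc_alg
  have hac : IsAlgClosure ℚ (AlgebraicClosure K) := ⟨inferInstance, halg⟩
  have hn : Normal ℚ (AlgebraicClosure K) := IsAlgClosure.normal ℚ (AlgebraicClosure K)
  have hpos : 0 < p ^ n := pow_pos hp.pos n
  have hcop : Nat.Coprime (1 + p) (p ^ n) := by
    apply Nat.Coprime.pow_right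
    simp
  have h2 : IsPrimitiveRoot (ζ ^ (1 + p)) (p ^ n) := hζ.pow_of_coprime (1 + p) hcop
  have h3 : IsConjRoot ℚ (ζ ^ (1 + p)) ζ := by
    rw [isConjRoot_def, ← Polynomial.cyclotomic_eq_minpoly_rat h2 hpos,
      ← Polynomial.cyclotomic_eq_minpoly_rat hζ hpos]
  exact isConjRoot_iff_exists_algEquiv.1 h3

theorem cyc_mem {p n : ℕ} (hp : p.Prime) {ζ : AlgebraicClosure K} (hζ : IsPrimitiveRoot ζ (p ^ n))
    {x : AlgebraicClosure K} (hx : IsIntegral ℤ x) (hx2 : x ∈ IntermediateField.adjoin ℚ {ζ}) :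
    x ∈ Algebra.adjoin ℤ ({ζ} : Set (AlgebraicClosure K)) := by
  have : Fact p.Prime := ⟨hp⟩
  have : Algebra.IsIntegral ℚ (AlgebraicClosure K) := by
    have := cyc_alg (K := K)
    infer_instance
  have : NeZero (p ^ n) := ⟨(pow_pos hp.pos n).ne'⟩
  have hc : IsCyclotomicExtension {p ^ n} ℚ (IntermediateField.adjoin ℚ ({ζ} : Set (AlgebraicClosure K))) :=
    hζ.intermediateField_adjoin_isCyclotomicExtension ℚ
  set E := IntermediateField.adjoin ℚ ({ζ} : Set (AlgebraicClosure K)) with hE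
  let z : E := ⟨ζ, IntermediateField.mem_adjoin_simple_self ℚ ζ⟩
  have hz : IsPrimitiveRoot z (p ^ n) := by
    apply IsPrimitiveRoot.of_map_of_injective (f := algebraMap E (AlgebraicClosure K))
    · exact hζ
    · exact (algebraMap E (AlgebraicClosure K)).injective
  have hcl := IsCyclotomicExtension.Rat.isIntegralClosure_adjoin_singleton_of_prime_pow (K := E) hz
  let y : E := ⟨x, hx2⟩
  have hy : IsIntegral ℤ y := by
    have := isIntegral_algHom_iff (E.val.restrictScalars ℤ)
      (algebraMap E (AlgebraicClosure K)).injective (x := y)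
    exact this.1 hx
  obtain ⟨w, hw⟩ := hcl.isIntegral_iff.1 hy
  have hw2 : y ∈ Algebra.adjoin ℤ ({z} : Set E) := by
    rw [← hw]; exact w.2
  have h4 : (E.val.restrictScalars ℤ) y ∈
      (Algebra.adjoin ℤ ({z} : Set E)).map (E.val.restrictScalars ℤ) :=
    Subalgebra.mem_map.2 ⟨y, hw2, rfl⟩
  rw [AlgHom.map_adjoin, Set.image_singleton] at h4
  exact h4

theorem cyc_prime {p n : ℕ} (hp : p.Prime) {ζ : AlgebraicClosure K} (hζ : IsPrimitiveRoot ζ (p ^ n))
    {P P' : Ideal (Zb K)} (hP : P.IsPrime) (hP' : P'.IsPrime) (h : (p : Zb K) ∈ P) (h' : (p : Zb K) ∈ P')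
    {x : Zb K} (hx : (x : AlgebraicClosure K) ∈ Algebra.adjoin ℤ ({ζ} : Set (AlgebraicClosure K))) :
    x ∈ P ↔ x ∈ P' := by
  have : Fact p.Prime := ⟨hp⟩
  have hpos : 0 < p ^ n := pow_pos hp.pos n
  have hzi : IsIntegral ℤ ζ := hζ.isIntegral hpos
  let z : Zb K := ⟨ζ, hzi⟩
  have hz1 : z ^ (p ^ n) = 1 := Subtype.ext (by simpa using hζ.pow_eq_one)
  rw [Algebra.adjoin_singleton_eq_range_aeval] at hx
  obtain ⟨f, hf⟩ := hx
  have hxf : x = Polynomial.aeval z f := by
    apply Subtype.ext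
    rw [← hf]
    have := Polynomial.aeval_algebraMap_apply (AlgebraicClosure K) z f
    exact this
  have key : ∀ Q : Ideal (Zb K), Q.IsPrime → (p : Zb K) ∈ Q → (x ∈ Q ↔ (p : ℤ) ∣ f.eval 1) := by
    intro Q hQ hpQ
    have hz2 : z - 1 ∈ Q := by
      have h5 : (z - 1) ^ (p ^ n) ∈ Q := by
        have : CharP (Zb K ⧸ Q) p := by
          have : Nontrivial (Zb K ⧸ Q) := Ideal.Quotient.nontrivial_iff.2 hQ.ne_top
          rw [CharP.charP_iff_prime_eq_zero hp]
          have := Ideal.Quotient.eq_zero_iff_mem.2 hpQ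
          rwa [map_natCast] at this
        rw [← Ideal.Quotient.eq_zero_iff_mem, map_pow, map_sub, map_one, sub_pow_char_pow, ← map_pow, hz1]
        simp
      exact hQ.mem_of_pow_mem _ h5
    have h6 : x - ((f.eval 1 : ℤ) : Zb K) ∈ Q := by
      rw [hxf]
      have h7 : (z - 1) ∣ Polynomial.aeval z f - Polynomial.aeval (1 : Zb K) f := by
        have h70 := Polynomial.sub_dvd_eval_sub z 1 (f.map (algebraMap ℤ (Zb K)))
        rw [← Polynomial.eval₂_eq_eval_map, ← Polynomial.eval₂_eq_eval_map] at h70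
        exact h70
      have h8 : Polynomial.aeval (1 : Zb K) f = ((f.eval 1 : ℤ) : Zb K) := by
        have h80 := Polynomial.aeval_algebraMap_apply (Zb K) (1 : ℤ) f
        rw [map_one] at h80
        rw [h80]
        rfl
      rw [← h8]
      exact Ideal.mem_of_dvd _ h7 hz2
    have h9 : x ∈ Q ↔ ((f.eval 1 : ℤ) : Zb K) ∈ Q := by
      constructor
      · intro hxQ
        have := Q.sub_mem hxQ h6
        simpa using this
      · intro hxQ
        have := Q.add_mem h6 hxQ
        simpa using this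
    rw [h9]
    constructor
    · intro h10
      by_contra hnd
      have hco : IsCoprime (p : ℤ) (f.eval 1) := by
        rw [(Nat.prime_iff_prime_int.1 hp).irreducible.coprime_iff_not_dvd]
        exact hnd
      obtain ⟨a, b, hab⟩ := hco
      apply hQ.ne_top
      rw [Ideal.eq_top_iff_one]
      have : (1 : Zb K) = (a : Zb K) * (p : Zb K) + (b : Zb K) * ((f.eval 1 : ℤ) : Zb K) := by
        have := congrArg (Int.cast : ℤ → Zb K) hab
        push_cast at this
        rw [← this]
      rw [this]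
      exact Q.add_mem (Q.mul_mem_left _ hpQ) (Q.mul_mem_left _ h10)
    · rintro ⟨c, hc⟩
      rw [hc]
      push_cast
      exact Q.mul_mem_right _ hpQ
  rw [key P hP h, key P' hP' h']

end Pool.Agent.H74.SC
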