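import Pool.Agent.H74.SC.Defs

/-!
ROW SC/Tra (helper74, project MP_335839_SC). Transitivity on the primes above.

PROOF. Mathlib: `Algebra.IsInvariant.exists_smul_of_under_eq_of_profinite` (`Mathlib/RingTheory/Invariant/Profinite.lean`) with `B = Zb K` (discrete topology),
`A` the subring of the elements of `B` fixed by the group, group `F.fixingSubgroup` (Krull topology; compact, totally disconnected) acting on `Zb K`;
`ContinuousSMul` because stabilizers of elements are open. The elements of `A` lie in `F` by Galois theory (`Ω/ℚ` is Galois).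
-/

set_option autoImplicit false

open scoped Pointwise NumberField

namespace Pool.Agent.H74.SC

variable {K : Type} [Field K] [NumberField K]

theorem tra_isGalois : IsGalois ℚ (AlgebraicClosure K) := by
  have : Algebra.IsAlgebraic ℚ K := inferInstance
  have : Algebra.IsAlgebraic ℚ (AlgebraicClosure K) := Algebra.IsAlgebraic.trans ℚ K (AlgebraicClosure K)
  have : IsAlgClosure ℚ (AlgebraicClosure K) := ⟨inferInstance, inferInstance⟩
  exact IsAlgClosure.isGalois ℚ (AlgebraicClosure K)

theorem tra (F : IntermediateField ℚ (AlgebraicClosure K)) {P P' : Ideal (Zb K)} (hP : P.IsPrime) (hP' : P'.IsPrime)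
    (h : ∀ x : Zb K, (x : AlgebraicClosure K) ∈ F → (x ∈ P ↔ x ∈ P')) :
    ∃ τ : Gal(AlgebraicClosure K/ℚ), (∀ x ∈ F, τ x = x) ∧ τ • P = P' := by
  classical
  have := tra_isGalois (K := K)
  letI : TopologicalSpace (Zb K) := ⊥
  have : DiscreteTopology (Zb K) := ⟨rfl⟩
  let G : Subgroup Gal(AlgebraicClosure K/ℚ) := F.fixingSubgroup
  have : CompactSpace G := isCompact_iff_compactSpace.1 (InfiniteGalois.fixingSubgroup_isClosed F).isCompact
  have : TotallyDisconnectedSpace G := inferInstance
  let A : Subalgebra ℤ (Zb K) := FixedPoints.subalgebra ℤ (Zb K) G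
  have : SMulCommClass G A (Zb K) := ⟨fun g a b => by
    have h1 : g • (a : Zb K) = a := a.2 g
    rw [Subalgebra.smul_def, Subalgebra.smul_def, smul_eq_mul, smul_eq_mul, smul_mul', h1]⟩
  have : Algebra.IsInvariant A (Zb K) G := ⟨fun b hb => ⟨⟨b, hb⟩, rfl⟩⟩
  have : ContinuousSMul G (Zb K) := by
    rw [continuousSMul_iff_stabilizer_isOpen]
    intro x
    have h1 := stabilizer_isOpen_of_isIntegral (K := ℚ) (x : AlgebraicClosure K)
    have h2 : (MulAction.stabilizer G x : Set G) = (fun g : G => (g : Gal(AlgebraicClosure K/ℚ))) ⁻¹'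
        (MulAction.stabilizer Gal(AlgebraicClosure K/ℚ) (x : AlgebraicClosure K) : Set Gal(AlgebraicClosure K/ℚ)) := by
      ext g
      simp only [SetLike.mem_coe, MulAction.mem_stabilizer_iff, Set.mem_preimage]
      rw [← Subtype.coe_inj]
      rfl
    rw [h2]
    exact h1.preimage continuous_subtype_val
  have := hP
  have := hP'
  obtain ⟨g, hg⟩ := Algebra.IsInvariant.exists_smul_of_under_eq_of_profinite (A := A) (G := G) P P' (by
    ext a
    have h1 : ((a : Zb K) : AlgebraicClosure K) ∈ F := by
      rw [← InfiniteGalois.fixedField_fixingSubgroup F, IntermediateField.mem_fixedField_iff]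
      intro f hf
      have h2 := a.2 ⟨f, hf⟩
      exact congrArg Subtype.val h2
    exact h (a : Zb K) h1)
  refine ⟨(g : Gal(AlgebraicClosure K/ℚ)), fun x hx => ?_, ?_⟩
  · have := (IntermediateField.mem_fixingSubgroup_iff F (g : Gal(AlgebraicClosure K/ℚ))).1 g.2 x hx
    exact this
  · rw [hg]
    rfl

end Pool.Agent.H74.SC
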