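import Pool.Agent.H74.SC.Cyc
import Pool.Agent.H74.SC.Tra

/-!
Project SC (MP_335839_SC), helper74: decomposition groups above `p` act on the `p`-power roots of unity through an infinite group.
-/

set_option autoImplicit false
set_option linter.unusedSectionVars false
set_option synthInstance.maxHeartbeats 400000

open scoped Pointwise NumberField

namespace Pool.Agent.H74.SC

variable {K : Type} [Field K] [NumberField K]

theorem exists_P {p : ℕ} (hp : p.Prime) : ∃ P : Ideal (Zb K), P.IsPrime ∧ P ≠ ⊥ ∧ (p : Zb K) ∈ P := by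
  have h1 : (Ideal.span {(p : ℤ)}).IsPrime := by
    rw [Ideal.span_singleton_prime (by exact_mod_cast hp.ne_zero)]
    exact Nat.prime_iff_prime_int.1 hp
  obtain ⟨P, hP, hP2⟩ := Ideal.exists_ideal_over_prime_of_isIntegral_of_isDomain (S := Zb K) (Ideal.span {(p : ℤ)}) (by
    rw [(RingHom.injective_iff_ker_eq_bot (algebraMap ℤ (Zb K))).1 (algebraMap ℤ (Zb K)).injective_int]
    exact bot_le)
  have h2 : (p : Zb K) ∈ P := by
    have h3 : (p : ℤ) ∈ P.comap (algebraMap ℤ (Zb K)) := by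
      rw [hP2]
      exact Ideal.mem_span_singleton_self _
    rw [Ideal.mem_comap] at h3
    simpa using h3
  refine ⟨P, hP, ?_, h2⟩
  rintro rfl
  rw [Ideal.mem_bot] at h2
  have : (p : ℕ) ≠ 0 := hp.ne_zero
  exact this (by exact_mod_cast h2)

theorem below_mem {p : ℕ} {P : Ideal (Zb K)} (h : (p : Zb K) ∈ P) : (p : 𝓞 K) ∈ below K P := by
  unfold below
  rw [Ideal.mem_comap, map_natCast]
  exact h

theorem dec {p : ℕ} [Fact p.Prime] (hp2 : p ≠ 2) {r : ℕ} (hr : 0 < r) (L : IntermediateField K (AlgebraicClosure K))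
    [FiniteDimensional K L] {P : Ideal (Zb K)} (hP : P.IsPrime) (hpP : (p : Zb K) ∈ P) :
    ∃ g : Gal(AlgebraicClosure K/K), g ∈ L.fixingSubgroup ∧ g ∈ MulAction.stabilizer Gal(AlgebraicClosure K/K) P ∧
      psi p r g ≠ 1 := by
  have hp : p.Prime := Fact.out
  have hp3 : 3 ≤ p := by
    have := hp.two_le
    omega
  have : NeZero (p : AlgebraicClosure K) := ⟨by exact_mod_cast hp.ne_zero⟩
  -- a bound for the index
  let LQ : IntermediateField ℚ (AlgebraicClosure K) := L.restrictScalars ℚ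
  have hfin : FiniteDimensional ℚ L := FiniteDimensional.trans ℚ K L
  have : FiniteDimensional ℚ LQ := hfin
  have : IsGalois ℚ (AlgebraicClosure K) := by
    have h1 : Algebra.IsAlgebraic ℚ (AlgebraicClosure K) := Algebra.IsAlgebraic.trans ℚ K (AlgebraicClosure K)
    have h2 : IsAlgClosure ℚ (AlgebraicClosure K) := ⟨inferInstance, h1⟩
    exact IsAlgClosure.isGalois ℚ (AlgebraicClosure K)
  have hidx : LQ.fixingSubgroup.index ≠ 0 := by
    rw [← IntermediateField.finrank_eq_fixingSubgroup_index]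
    exact Module.finrank_pos.ne'
  obtain ⟨n, hn⟩ : ∃ n : ℕ, LQ.fixingSubgroup.index * r < p ^ n := ⟨_, Nat.lt_pow_self hp.one_lt⟩
  have hn0 : n ≠ 0 := by
    rintro rfl
    have : 0 < LQ.fixingSubgroup.index * r := Nat.mul_pos (Nat.pos_of_ne_zero hidx) hr
    rw [pow_zero] at hn
    omega
  obtain ⟨ζ, hζ⟩ := HasEnoughRootsOfUnity.exists_primitiveRoot (AlgebraicClosure K) (p ^ (n + 1))
  obtain ⟨σ, hσ⟩ := cyc_conj hp hζ
  -- the prime `σ P`
  have hσP : (σ • P).IsPrime := hP.smul σ
  have hσp : (p : Zb K) ∈ σ • P := by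
    have h1 : σ • (p : Zb K) ∈ σ • P := Ideal.smul_mem_pointwise_smul σ _ P hpP
    have h2 : σ • (p : Zb K) = p := map_natCast (MulSemiringAction.toRingHom Gal(AlgebraicClosure K/ℚ) (Zb K) σ) p
    rwa [h2] at h1
  obtain ⟨τ, hτ1, hτ2⟩ := tra (K := K) (IntermediateField.adjoin ℚ {ζ}) hσP hP (fun x hx =>
    cyc_prime hp hζ hσP hP hσp hpP (cyc_mem hp hζ x.2 hx))
  let g0 : Gal(AlgebraicClosure K/ℚ) := τ * σ
  have hg0P : g0 • P = P := by
    change (τ * σ) • P = P
    rw [mul_smul, hτ2]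
  have hg0ζ : g0 ζ = ζ ^ (1 + p) := by
    change τ (σ ζ) = ζ ^ (1 + p)
    rw [hσ, map_pow, hτ1 ζ (IntermediateField.mem_adjoin_simple_self ℚ ζ)]
  obtain ⟨j, hj0, hj, hgj⟩ := Subgroup.exists_pow_mem_of_index_ne_zero hidx g0
  -- as an automorphism over `K`
  have hfix : ∀ x ∈ L, (g0 ^ j) x = x := fun x hx => hgj ⟨x, hx⟩
  let g : Gal(AlgebraicClosure K/K) := AlgEquiv.ofRingEquiv (f := (g0 ^ j).toRingEquiv) (fun x => hfix _ (L.algebraMap_mem x))
  have hgx : ∀ x, g x = (g0 ^ j) x := fun x => rfl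
  refine ⟨g, fun x => hfix x x.2, ?_, ?_⟩
  · rw [MulAction.mem_stabilizer_iff]
    have h1 : g • P = (g0 ^ j) • P := by
      ext x
      rw [Ideal.mem_pointwise_smul_iff_inv_smul_mem, Ideal.mem_pointwise_smul_iff_inv_smul_mem]
      have h2 : g⁻¹ • x = (g0 ^ j)⁻¹ • x := by
        rw [inv_smul_eq_iff]
        apply Subtype.ext
        change (x : AlgebraicClosure K) = g ((g0 ^ j)⁻¹ (x : AlgebraicClosure K))
        rw [hgx]
        exact (AlgEquiv.apply_symm_apply (g0 ^ j) _).symm
      rw [h2]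
    rw [h1]
    have h3 : ∀ m : ℕ, (g0 ^ m) • P = P := by
      intro m
      induction m with
      | zero => rw [pow_zero, one_smul]
      | succ m ih => rw [pow_succ, mul_smul, hg0P, ih]
    exact h3 j
  · intro hpsi
    -- the cyclotomic character of `g0`
    let χ := cyclotomicCharacter (AlgebraicClosure K) p
    have hχg : χ g.toRingEquiv = (χ g0.toRingEquiv) ^ j := by
      rw [← map_pow]
      congr 1
      apply RingEquiv.ext
      intro x
      change (g0 ^ j) x = ((g0.toRingEquiv) ^ j) x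
      have h1 : ∀ m : ℕ, ∀ y, (g0 ^ m) y = ((g0.toRingEquiv) ^ m) y := by
        intro m
        induction m with
        | zero => intro y; rfl
        | succ m ih =>
          intro y
          rw [pow_succ, pow_succ]
          change (g0 ^ m) (g0 y) = ((g0.toRingEquiv) ^ m) (g0.toRingEquiv y)
          rw [ih]
          rfl
      exact h1 j x
    have h1 : (χ g0.toRingEquiv : ℤ_[p]) ^ (j * r) = 1 := by
      have h2 : psi p r g = (χ g.toRingEquiv : ℤ_[p]) ^ r := by
        unfold psi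
        push_cast
        rfl
      rw [h2, hχg, Units.val_pow_eq_pow_val, ← pow_mul] at hpsi
      exact hpsi
    have h3 : PadicInt.toZModPow (n + 1) (χ g0.toRingEquiv : ℤ_[p]) = 1 + p := by
      have h4 := cyclotomicCharacter.spec (L := AlgebraicClosure K) p (n := n + 1) g0.toRingEquiv ζ hζ.pow_eq_one
      have h5 : g0.toRingEquiv ζ = ζ ^ (1 + p) := hg0ζ
      rw [h5] at h4
      have : NeZero (p ^ (n + 1)) := ⟨(pow_pos hp.pos _).ne'⟩
      have h6 : 1 + p < p ^ (n + 1) := by
        have h7 : p ^ 2 ≤ p ^ (n + 1) := Nat.pow_le_pow_right hp.pos (by omega)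
        nlinarith
      have h8 := hζ.pow_inj h6 (ZMod.val_lt _) h4
      have h9 := congrArg (Nat.cast : ℕ → ZMod (p ^ (n + 1))) h8
      rw [ZMod.natCast_zmod_val] at h9
      rw [← h9]
      push_cast
      rfl
    have h10 := congrArg (PadicInt.toZModPow (p := p) (n + 1)) h1
    rw [map_pow, h3, map_one] at h10
    have h11 := orderOf_dvd_of_pow_eq_one h10
    rw [ZMod.orderOf_one_add_prime hp hp2] at h11
    have h12 := Nat.le_of_dvd (Nat.mul_pos hj0 hr) h11
    have h13 : j * r ≤ LQ.fixingSubgroup.index * r := Nat.mul_le_mul_right r hj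
    omega

end Pool.Agent.H74.SC
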