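import Mathlib

/-!
# Project SC (MP_335839): definitions

`K` is a number field, `Ω` its algebraic closure, `p` a prime, `F` a field between `K` and `Ω`.
`IsSha K p r S F c`: `c` is a continuous `1`-cocycle of `Gal(Ω/F)` with values in `ℤ_p(r)` which is unramified outside `S` and
locally trivial at the places in `S`.
-/

set_option autoImplicit false

open scoped Pointwise NumberField

namespace Pool.Agent.H74.SC

variable (K : Type) [Field K] [NumberField K]

/-- the algebraic integers of the algebraic closure of `K` -/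
abbrev Zb : Type := integralClosure ℤ (AlgebraicClosure K)

/-- the prime ideal of `𝓞 K` below an ideal of the ring of algebraic integers -/
noncomputable def below (P : Ideal (Zb K)) : Ideal (𝓞 K) :=
  P.comap (RingHom.codRestrict ((algebraMap K (AlgebraicClosure K)).comp (algebraMap (𝓞 K) K))
    (integralClosure ℤ (AlgebraicClosure K)) fun x => by
      have h : IsIntegral ℤ x := NumberField.RingOfIntegers.isIntegral x
      exact (h.map ((algebraMap K (AlgebraicClosure K)).comp (algebraMap (𝓞 K) K)).toIntAlgHom))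

variable {K} in
/-- the `r`-th power of the `p`-adic cyclotomic character -/
noncomputable def psi (p : ℕ) [Fact p.Prime] (r : ℕ) (g : Gal(AlgebraicClosure K/K)) : ℤ_[p] :=
  (cyclotomicCharacter (AlgebraicClosure K) p g.toRingEquiv : ℤ_[p]ˣ) ^ r

/-- `c` is a continuous cocycle of `Gal(Ω/F)` with values in `ℤ_p(r)`, unramified outside `S`, locally trivial at `S` -/
structure IsSha (p : ℕ) [Fact p.Prime] (r : ℕ) (S : Set (Ideal (𝓞 K)))
    (F : IntermediateField K (AlgebraicClosure K)) (c : F.fixingSubgroup → ℤ_[p]) : Prop where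
  cont : Continuous c
  mul : ∀ g h, c (g * h) = c g + psi p r (g : Gal(AlgebraicClosure K/K)) * c h
  unram : ∀ P : Ideal (Zb K), P.IsPrime → P ≠ ⊥ → below K P ∉ S →
    ∀ g : F.fixingSubgroup, (g : Gal(AlgebraicClosure K/K)) ∈ P.inertia Gal(AlgebraicClosure K/K) → c g = 0
  loc : ∀ P : Ideal (Zb K), P.IsPrime → P ≠ ⊥ → below K P ∈ S →
    ∃ b : ℤ_[p], ∀ g : F.fixingSubgroup, (g : Gal(AlgebraicClosure K/K)) ∈ MulAction.stabilizer Gal(AlgebraicClosure K/K) P →
      c g = (psi p r (g : Gal(AlgebraicClosure K/K)) - 1) * b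

/-- `Sha^1(O_(F,S), ℤ_p(r)) = 0` -/
def ShaZero (p : ℕ) [Fact p.Prime] (r : ℕ) (S : Set (Ideal (𝓞 K)))
    (F : IntermediateField K (AlgebraicClosure K)) : Prop :=
  ∀ c : F.fixingSubgroup → ℤ_[p], IsSha K p r S F c →
    ∃ b : ℤ_[p], ∀ g : F.fixingSubgroup, c g = (psi p r (g : Gal(AlgebraicClosure K/K)) - 1) * b

/-- `S` contains the places above `p` -/
def Above (p : ℕ) (S : Set (Ideal (𝓞 K))) : Prop :=
  ∀ v : Ideal (𝓞 K), v.IsPrime → (p : 𝓞 K) ∈ v → v ∈ S

/-- `L/K` is unramified at the places outside `S` -/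
def Unram (S : Set (Ideal (𝓞 K))) (L : IntermediateField K (AlgebraicClosure K)) : Prop :=
  ∀ P : Ideal (Zb K), P.IsPrime → P ≠ ⊥ → below K P ∉ S → P.inertia Gal(AlgebraicClosure K/K) ≤ L.fixingSubgroup

/-- every subgroup of `Aut(F/K)` whose order is a product of two primes is cyclic -/
def Periodic (F : IntermediateField K (AlgebraicClosure K)) : Prop :=
  ∀ (E : Subgroup (F ≃ₐ[K] F)) (q q' : ℕ), q.Prime → q'.Prime → Nat.card E = q * q' → IsCyclic E

/-- `Aut(F/K)` acts on a torsion-free abelian group `A ≠ 0` in such a way that no automorphism `≠ 1` fixes an element `≠ 0` -/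
def FreeAct (F : IntermediateField K (AlgebraicClosure K)) : Prop :=
  ∃ (A : Type) (_ : AddCommGroup A) (_ : DistribMulAction (F ≃ₐ[K] F) A),
    (∀ (k : ℕ) (a : A), k ≠ 0 → k • a = 0 → a = 0) ∧ (∃ a : A, a ≠ 0) ∧
    ∀ e : F ≃ₐ[K] F, e ≠ 1 → ∀ a : A, e • a = a → a = 0

end Pool.Agent.H74.SC
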