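import Pool.Agent.H74.SC.Defs

/-!
ROW SC/Glu (helper74, project MP_335839_SC). Field theory: `F` a finite extension of `K` in `Ω`, `E` a subgroup of `Aut(F/K)`, `Fx F E` the fixed field of `E` in `F`, as a field between `K` and `Ω`.

PROOFS. `glu_ext`: `AlgEquiv.liftNormal` (`Ω/K` is normal). `glu_mem`: (⇐) clear. (⇒) `F` is a finite Galois extension of the fixed field `M` of `E` (instance for `IntermediateField.fixedField`,
`M : IntermediateField K F`), hence normal, so `g`, which fixes `M`, maps `F` to `F` (`AlgEquiv.restrictNormal` for `g` as an automorphism of `Ω` over `M`, with the tower `M`, `F`, `Ω`; or: for `x ∈ F` the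
polynomial `∏_(e ∈ E) (X - e x)` has coefficients in `M`); the restriction is an element of `Aut(F/K)` which fixes `M`, so it is in `E` (`IntermediateField.fixingSubgroup_fixedField`).
`glu_lt`: `[F : M] = #E > 1` (`IntermediateField.finrank_fixedField_eq_card`), tower law.
-/

set_option autoImplicit false

open scoped Pointwise NumberField

namespace Pool.Agent.H74.SC

variable {K : Type} [Field K] [NumberField K]

/-- the fixed field of `E` in `F`, as a field between `K` and its algebraic closure -/
noncomputable def Fx (F : IntermediateField K (AlgebraicClosure K)) (E : Subgroup (F ≃ₐ[K] F)) :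
    IntermediateField K (AlgebraicClosure K) :=
  IntermediateField.lift (IntermediateField.fixedField E)

theorem glu_ext (F : IntermediateField K (AlgebraicClosure K)) (e : F ≃ₐ[K] F) :
    ∃ g : Gal(AlgebraicClosure K/K), ∀ x : F, g x = e x :=
  ⟨e.liftNormal (AlgebraicClosure K), fun x => e.liftNormal_commutes (AlgebraicClosure K) x⟩

private theorem mem_Fx (F : IntermediateField K (AlgebraicClosure K)) (E : Subgroup (F ≃ₐ[K] F))
    {x : AlgebraicClosure K} (hx : x ∈ Fx F E) :
    ∃ y : F, (y : AlgebraicClosure K) = x ∧ ∀ e ∈ E, e y = y := by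
  obtain ⟨y, hy, rfl⟩ := hx
  exact ⟨y, rfl, fun e he => (IntermediateField.mem_fixedField_iff E y).1 hy e he⟩

theorem glu_mem (F : IntermediateField K (AlgebraicClosure K)) [FiniteDimensional K F] (E : Subgroup (F ≃ₐ[K] F))
    (g : Gal(AlgebraicClosure K/K)) :
    g ∈ (Fx F E).fixingSubgroup ↔ ∃ e ∈ E, ∀ x : F, g x = e x := by
  rw [IntermediateField.mem_fixingSubgroup_iff]
  constructor
  · intro h
    have hfix : ∀ r : IntermediateField.fixedField E,
        g (algebraMap (IntermediateField.fixedField E) (AlgebraicClosure K) r) =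
          algebraMap (IntermediateField.fixedField E) (AlgebraicClosure K) r := by
      intro r
      refine h _ ?_
      exact (IntermediateField.mem_lift (r : F)).2 r.2
    obtain ⟨χ, hχ⟩ : ∃ χ : AlgebraicClosure K ≃ₐ[IntermediateField.fixedField E] AlgebraicClosure K,
        ∀ x, χ x = g x := ⟨AlgEquiv.ofRingEquiv (f := g.toRingEquiv) hfix, fun _ => rfl⟩
    have hfin : Finite E := inferInstance
    have hN : Normal (IntermediateField.fixedField E) F := FixedPoints.normal E F
    obtain ⟨e', he'⟩ : ∃ e' : F ≃ₐ[IntermediateField.fixedField E] F, ∀ x : F, g x = e' x :=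
      ⟨χ.restrictNormal F, fun x => by
        rw [← hχ]
        exact (AlgEquiv.restrictNormal_commutes χ F x).symm⟩
    refine ⟨e'.restrictScalars K, ?_, he'⟩
    refine (IntermediateField.fixingSubgroup_fixedField E).le ?_
    rw [IntermediateField.mem_fixingSubgroup_iff]
    intro x hx
    exact e'.commutes ⟨x, hx⟩
  · rintro ⟨e, he, h⟩ x hx
    obtain ⟨y, rfl, hy⟩ := mem_Fx F E hx
    change g y = y
    rw [h y, hy e he]

theorem glu_le (F : IntermediateField K (AlgebraicClosure K)) (E : Subgroup (F ≃ₐ[K] F)) : Fx F E ≤ F := by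
  intro x hx
  obtain ⟨y, rfl, _⟩ := mem_Fx F E hx
  exact y.2

theorem glu_lt (F : IntermediateField K (AlgebraicClosure K)) [FiniteDimensional K F] (E : Subgroup (F ≃ₐ[K] F))
    (hE : E ≠ ⊥) : Module.finrank K (Fx F E) < Module.finrank K F := by
  have h1 : Module.finrank K (Fx F E) = Module.finrank K (IntermediateField.fixedField E) :=
    (LinearEquiv.finrank_eq (IntermediateField.liftAlgEquiv (IntermediateField.fixedField E)).toLinearEquiv).symm
  have h2 := Module.finrank_mul_finrank K (IntermediateField.fixedField E) F
  have h3 : Module.finrank (IntermediateField.fixedField E) F = Nat.card E :=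
    IntermediateField.finrank_fixedField_eq_card E
  have h4 : 1 < Nat.card E := by
    rw [Subgroup.one_lt_card_iff_ne_bot]
    exact hE
  have h5 : 0 < Module.finrank K (IntermediateField.fixedField E) := Module.finrank_pos
  rw [h1, ← h2, h3]
  nlinarith

end Pool.Agent.H74.SC
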