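import Pool.Agent.H74.SC.Dec
import Pool.Agent.H74.SC.Glu
import Pool.Agent.H74.SC.Ac

/-!
Project SC (MP_335839_SC), helper74: assembly.
-/

set_option autoImplicit false
set_option linter.unusedSectionVars false
set_option synthInstance.maxHeartbeats 400000

open scoped Pointwise NumberField

namespace Pool.Agent.H74.SC

variable (K : Type) [Field K] [NumberField K]

variable {K} in
/-- `psi` as a homomorphism -/
noncomputable def psiH (p : ℕ) [Fact p.Prime] (r : ℕ) : Gal(AlgebraicClosure K/K) →* ℤ_[p] where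
  toFun := psi p r
  map_one' := by
    unfold psi
    have h : (1 : Gal(AlgebraicClosure K/K)).toRingEquiv = 1 := rfl
    rw [h, map_one]
    simp
  map_mul' g h := by
    unfold psi
    have e : (g * h).toRingEquiv = g.toRingEquiv * h.toRingEquiv := rfl
    rw [e, map_mul, Units.val_mul, mul_pow]

/-- decomposition groups at the places in `S` -/
def Dset (S : Set (Ideal (𝓞 K))) : Set (Subgroup Gal(AlgebraicClosure K/K)) :=
  {D | ∃ P : Ideal (Zb K), P.IsPrime ∧ P ≠ ⊥ ∧ below K P ∈ S ∧ D = MulAction.stabilizer Gal(AlgebraicClosure K/K) P}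

/-- inertia groups outside `S` -/
def Iset (S : Set (Ideal (𝓞 K))) : Set (Subgroup Gal(AlgebraicClosure K/K)) :=
  {I | ∃ P : Ideal (Zb K), P.IsPrime ∧ P ≠ ⊥ ∧ below K P ∉ S ∧ I = P.inertia Gal(AlgebraicClosure K/K)}

variable {K}

theorem mem_below {P : Ideal (Zb K)} {x : 𝓞 K} (y : Zb K) (hy : (y : AlgebraicClosure K) = algebraMap K (AlgebraicClosure K) (algebraMap (𝓞 K) K x)) :
    x ∈ below K P ↔ y ∈ P := by
  unfold below
  rw [Ideal.mem_comap]
  have h : y = RingHom.codRestrict ((algebraMap K (AlgebraicClosure K)).comp (algebraMap (𝓞 K) K))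
    (integralClosure ℤ (AlgebraicClosure K)) (fun x => by
      have h : IsIntegral ℤ x := NumberField.RingOfIntegers.isIntegral x
      exact (h.map ((algebraMap K (AlgebraicClosure K)).comp (algebraMap (𝓞 K) K)).toIntAlgHom)) x :=
    Subtype.ext hy
  rw [h]

theorem below_smul (P : Ideal (Zb K)) (t : Gal(AlgebraicClosure K/K)) : below K (t • P) = below K P := by
  ext x
  let y : Zb K := RingHom.codRestrict ((algebraMap K (AlgebraicClosure K)).comp (algebraMap (𝓞 K) K))
    (integralClosure ℤ (AlgebraicClosure K)) (fun x => by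
      have h : IsIntegral ℤ x := NumberField.RingOfIntegers.isIntegral x
      exact (h.map ((algebraMap K (AlgebraicClosure K)).comp (algebraMap (𝓞 K) K)).toIntAlgHom)) x
  have hy : (y : AlgebraicClosure K) = algebraMap K (AlgebraicClosure K) (algebraMap (𝓞 K) K x) := rfl
  rw [mem_below y hy, mem_below y hy, Ideal.mem_pointwise_smul_iff_inv_smul_mem]
  have h : t⁻¹ • y = y := by
    apply Subtype.ext
    change t⁻¹ (y : AlgebraicClosure K) = y
    rw [hy]
    exact AlgEquiv.commutes _ _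
  rw [h]

theorem smul_ne_bot {P : Ideal (Zb K)} (hP : P ≠ ⊥) (t : Gal(AlgebraicClosure K/K)) : t • P ≠ ⊥ := by
  intro h
  apply hP
  have h1 : t⁻¹ • (t • P) = t⁻¹ • (⊥ : Ideal (Zb K)) := by rw [h]
  rw [inv_smul_smul] at h1
  rw [h1]
  ext x
  rw [Ideal.mem_pointwise_smul_iff_inv_smul_mem, Ideal.mem_bot, Ideal.mem_bot]
  exact smul_eq_zero_iff_eq _

theorem stab_D (S : Set (Ideal (𝓞 K))) : Stab (Dset K S) := by
  rintro _ ⟨P, hP, hP0, hPS, rfl⟩ t
  refine ⟨_, ⟨t⁻¹ • P, hP.smul _, smul_ne_bot hP0 _, by rwa [below_smul], rfl⟩, fun g hg => ?_⟩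
  rw [MulAction.mem_stabilizer_iff] at hg ⊢
  rw [smul_smul, mul_assoc, mul_inv_cancel, mul_one, mul_smul, hg]

theorem stab_I (S : Set (Ideal (𝓞 K))) : Stab (Iset K S) := by
  rintro _ ⟨P, hP, hP0, hPS, rfl⟩ t
  refine ⟨_, ⟨t⁻¹ • P, hP.smul _, smul_ne_bot hP0 _, by rwa [below_smul], rfl⟩, fun g hg => ?_⟩
  have hg' : ∀ x : Zb K, g • x - x ∈ P := hg
  change ∀ x : Zb K, (t⁻¹ * g * t) • x - x ∈ t⁻¹ • P
  intro x
  rw [Ideal.mem_pointwise_smul_iff_inv_smul_mem, inv_inv, smul_sub, smul_smul]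
  have h : t * (t⁻¹ * g * t) = g * t := by group
  rw [h, mul_smul]
  exact hg' (t • x)

theorem zero_iff (p : ℕ) [Fact p.Prime] (r : ℕ) (S : Set (Ideal (𝓞 K))) (F : IntermediateField K (AlgebraicClosure K)) :
    Zero (psiH p r) (Dset K S) (Iset K S) F.fixingSubgroup ↔ ShaZero K p r S F := by
  classical
  constructor
  · intro h c hc
    let c' : Gal(AlgebraicClosure K/K) → ℤ_[p] := fun g => if hg : g ∈ F.fixingSubgroup then c ⟨g, hg⟩ else 0
    have hc' : ∀ g (hg : g ∈ F.fixingSubgroup), c' g = c ⟨g, hg⟩ := fun g hg => dif_pos hg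
    have hcz : Cz (psiH p r) (Dset K S) (Iset K S) F.fixingSubgroup c' := by
      refine ⟨?_, ?_, ?_, ?_⟩
      · rw [continuousOn_iff_continuous_restrict]
        have h1 : Set.domRestrict (F.fixingSubgroup : Set Gal(AlgebraicClosure K/K)) c' = c := by
          funext g
          exact hc' g g.2
        rw [h1]
        exact hc.cont
      · intro g hg h hh
        rw [hc' g hg, hc' h hh, hc' _ (F.fixingSubgroup.mul_mem hg hh)]
        exact hc.mul ⟨g, hg⟩ ⟨h, hh⟩
      · rintro _ ⟨P, hP, hP0, hPS, rfl⟩ g hg hgF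
        rw [hc' g hgF]
        exact hc.unram P hP hP0 hPS ⟨g, hgF⟩ hg
      · rintro _ ⟨P, hP, hP0, hPS, rfl⟩
        obtain ⟨b, hb⟩ := hc.loc P hP hP0 hPS
        refine ⟨b, fun g hg hgF => ?_⟩
        rw [hc' g hgF]
        exact hb ⟨g, hgF⟩ hg
    obtain ⟨b, hb⟩ := h c' hcz
    refine ⟨b, fun g => ?_⟩
    have h1 := hb g g.2
    rw [hc' g g.2] at h1
    exact h1
  · intro h c hc
    have hsh : IsSha K p r S F (fun g => c g) := by
      refine ⟨?_, ?_, ?_, ?_⟩
      · exact continuousOn_iff_continuous_restrict.1 hc.cont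
      · intro g h
        exact hc.mul g g.2 h h.2
      · intro P hP hP0 hPS g hg
        exact hc.unr _ ⟨P, hP, hP0, hPS, rfl⟩ g hg g.2
      · intro P hP hP0 hPS
        obtain ⟨b, hb⟩ := hc.loc _ ⟨P, hP, hP0, hPS, rfl⟩
        exact ⟨b, fun g hg => hb g hg g.2⟩
    obtain ⟨b, hb⟩ := h _ hsh
    exact ⟨b, fun g hg => hb ⟨g, hg⟩⟩

open Classical in
/-- the data attached to a finite extension `F` of `K` -/
noncomputable def datF (F : IntermediateField K (AlgebraicClosure K)) [FiniteDimensional K F] :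
    Dat Gal(AlgebraicClosure K/K) (F ≃ₐ[K] F) where
  U := (Fx F ⊤).fixingSubgroup
  π g := if h : ∃ e : F ≃ₐ[K] F, ∀ x : F, g x = e x then h.choose else 1
  s e := if e = 1 then 1 else (glu_ext F e).choose
  mul g hg h hh := by
    obtain ⟨e, -, he⟩ := (glu_mem F ⊤ g).1 hg
    obtain ⟨f, -, hf⟩ := (glu_mem F ⊤ h).1 hh
    have h1 : ∃ e : F ≃ₐ[K] F, ∀ x : F, g x = e x := ⟨e, he⟩
    have h2 : ∃ e : F ≃ₐ[K] F, ∀ x : F, h x = e x := ⟨f, hf⟩
    have h3 : ∃ e : F ≃ₐ[K] F, ∀ x : F, (g * h) x = e x := ⟨e * f, fun x => by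
      change g (h x) = _
      rw [hf x, he (f x)]
      rfl⟩
    rw [dif_pos h1, dif_pos h2, dif_pos h3]
    apply AlgEquiv.ext
    intro x
    apply Subtype.ext
    rw [← h3.choose_spec x]
    change g (h x) = ((h1.choose (h2.choose x) : F) : AlgebraicClosure K)
    rw [← h1.choose_spec, ← h2.choose_spec]
  sU e := by
    by_cases he : e = 1
    · rw [if_pos he]
      exact Subgroup.one_mem _
    · rw [if_neg he, glu_mem]
      exact ⟨e, trivial, (glu_ext F e).choose_spec⟩
  πs e := by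
    by_cases he : e = 1
    · rw [if_pos he]
      have h1 : ∃ e : F ≃ₐ[K] F, ∀ x : F, (1 : Gal(AlgebraicClosure K/K)) x = e x := ⟨1, fun x => rfl⟩
      rw [dif_pos h1, he]
      apply AlgEquiv.ext
      intro x
      apply Subtype.ext
      rw [← h1.choose_spec x]
      rfl
    · rw [if_neg he]
      have h1 : ∃ f : F ≃ₐ[K] F, ∀ x : F, (glu_ext F e).choose x = f x := ⟨e, (glu_ext F e).choose_spec⟩
      rw [dif_pos h1]
      apply AlgEquiv.ext
      intro x
      apply Subtype.ext
      rw [← h1.choose_spec x, (glu_ext F e).choose_spec x]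
  s1 := if_pos rfl

theorem datF_H (F : IntermediateField K (AlgebraicClosure K)) [FiniteDimensional K F] (E' : Subgroup (F ≃ₐ[K] F)) :
    (datF F).H E' = (Fx F E').fixingSubgroup := by
  classical
  ext g
  rw [glu_mem]
  constructor
  · rintro ⟨hg, hg2⟩
    obtain ⟨e, -, he⟩ := (glu_mem F ⊤ g).1 hg
    have h1 : ∃ e : F ≃ₐ[K] F, ∀ x : F, g x = e x := ⟨e, he⟩
    have h2 : (datF F).π g = h1.choose := dif_pos h1
    rw [h2] at hg2
    exact ⟨_, hg2, h1.choose_spec⟩
  · rintro ⟨e, he, hge⟩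
    have h1 : ∃ e : F ≃ₐ[K] F, ∀ x : F, g x = e x := ⟨e, hge⟩
    have h2 : (datF F).π g = h1.choose := dif_pos h1
    have h3 : h1.choose = e := by
      apply AlgEquiv.ext
      intro x
      apply Subtype.ext
      rw [← h1.choose_spec x, hge x]
    refine ⟨(glu_mem F ⊤ g).2 ⟨e, trivial, hge⟩, ?_⟩
    rw [h2, h3]
    exact he

theorem Fx_bot (F : IntermediateField K (AlgebraicClosure K)) [FiniteDimensional K F] :
    (Fx F ⊥).fixingSubgroup = F.fixingSubgroup := by
  ext g
  rw [glu_mem]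
  constructor
  · rintro ⟨e, he, hge⟩ x
    rw [Subgroup.mem_bot] at he
    rw [he] at hge
    exact hge x
  · intro h
    exact ⟨1, Subgroup.one_mem _, fun x => h x⟩

theorem step (p : ℕ) [Fact p.Prime] (hp2 : p ≠ 2) {r : ℕ} (hr : 0 < r) (S : Set (Ideal (𝓞 K))) (hS : Above K p S)
    (F : IntermediateField K (AlgebraicClosure K)) [FiniteDimensional K F] (hF : Unram K S F) (hper : ¬ Periodic K F)
    (h : ∀ E' : Subgroup (F ≃ₐ[K] F), E' ≠ ⊥ → ShaZero K p r S (Fx F E')) : ShaZero K p r S F := by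
  unfold Periodic at hper
  push Not at hper
  obtain ⟨E0, q, q', hq, hq', hcard, hnc⟩ := hper
  have hbot : (datF F).H ⊥ = F.fixingSubgroup := by rw [datF_H, Fx_bot]
  rw [← zero_iff, ← hbot]
  refine (datF F).main (stab_D S) (stab_I S) ?_ ?_ ?_ E0 hq hq' hcard hnc ?_
  · rw [hbot]
    exact IntermediateField.fixingSubgroup_isOpen F
  · rintro _ ⟨P, hP, hP0, hPS, rfl⟩
    rw [hbot]
    exact hF P hP hP0 hPS
  · obtain ⟨P, hP, hP0, hpP⟩ := exists_P (K := K) (p := p) Fact.out
    obtain ⟨g, hg, hg2, hg3⟩ := dec hp2 hr F hP hpP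
    refine ⟨_, ⟨P, hP, hP0, hS _ (by unfold below; exact hP.comap _) (below_mem hpP), rfl⟩, g, hg2, ?_, hg3⟩
    rw [hbot]
    exact hg
  · intro E' hE'
    rw [datF_H, zero_iff]
    exact h E' hE'

theorem fin (p : ℕ) [Fact p.Prime] (hp2 : p ≠ 2) {r : ℕ} (hr : 0 < r) (S : Set (Ideal (𝓞 K))) (hS : Above K p S)
    (L : IntermediateField K (AlgebraicClosure K)) [FiniteDimensional K L] [Normal K L] (hL : Unram K S L) :
    ShaZero K p r S L ↔ ∀ F : IntermediateField K (AlgebraicClosure K), F ≤ L → Periodic K F → ShaZero K p r S F := by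
  constructor
  · intro h F hFL _
    rw [← zero_iff] at h ⊢
    refine descend (IntermediateField.fixingSubgroup_antitone hFL) ?_ ?_ h
    · intro t _ n hn x
      have h1 : t x ∈ L := by
        have h2 := AlgEquiv.restrictNormal_commutes t L x
        have h3 : t (x : AlgebraicClosure K) = ((t.restrictNormal L) x : L) := h2.symm
        rw [h3]
        exact ((t.restrictNormal L) x).2
      change t⁻¹ (n (t x)) = x
      have h2 : n (t x) = t x := hn ⟨_, h1⟩
      rw [h2]
      exact AlgEquiv.symm_apply_apply t x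
    · obtain ⟨P, hP, hP0, hpP⟩ := exists_P (K := K) (p := p) Fact.out
      obtain ⟨g, hg, -, hg3⟩ := dec hp2 hr L hP hpP
      exact ⟨g, hg, hg3⟩
  · intro h
    have key : ∀ m : ℕ, ∀ F : IntermediateField K (AlgebraicClosure K), F ≤ L → Module.finrank K F = m → ShaZero K p r S F := by
      intro m
      induction m using Nat.strong_induction_on with
      | _ m ih =>
        intro F hFL hFm
        by_cases hper : Periodic K F
        · exact h F hFL hper
        · have : FiniteDimensional K F := by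
            have h1 : Module.Finite K (IntermediateField.inclusion hFL).range := inferInstance
            exact FiniteDimensional.of_injective (IntermediateField.inclusion hFL).toLinearMap
              (IntermediateField.inclusion hFL).injective
          refine step p hp2 hr S hS F (fun P hP hP0 hPS => (hL P hP hP0 hPS).trans (IntermediateField.fixingSubgroup_antitone hFL))
            hper fun E' hE' => ?_
          exact ih _ (hFm ▸ glu_lt F E' hE') (Fx F E') ((glu_le F E').trans hFL) rfl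
    exact key _ L le_rfl rfl

end Pool.Agent.H74.SC
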