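import Pool.Agent.H74.SC.Defs

/-!
ROW SC/In (helper74, project MP_335839_SC). Inertia groups at primes not above `p` act trivially on the `p`-power roots of unity.

PROOFS. `root_inj`: let `η ≠ 1`, of exact order `p^m`, `m ≥ 1` (`IsPrimitiveRoot.orderOf`, the order divides `p^n`). Then `1 - η` divides `p` in the ring of algebraic integers:
`p = cyclotomic (p^m) ℤ` evaluated at `1` (`Polynomial.eval_one_cyclotomic_prime_pow`) `= ∏ (1 - η')` over the primitive roots; or: `p^m`-th version: `p^n = ∏_(k<p^n, k≠0) (1 - ζ^k)`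
(`IsPrimitiveRoot...`), or by hand: `x^(p^m) - 1 = (x - 1)(1 + x + ...)`. So `η - 1 ∈ P` gives `p ∈ P`, a contradiction.
`inertia_psi`: for a `p^n`-th root of unity `ζ`: `g ζ - ζ ∈ P`, `ζ` is a unit of `Zb K`, `η = (g ζ)/ζ` is a `p^n`-th root of unity with `η - 1 ∈ P`, so `η = 1`. By the uniqueness in
`cyclotomicCharacter`/`cyclotomicCharacter.spec` (with a primitive root `ζ`) the character is `1` modulo every `p^n`: `PadicInt.ext_of_toZModPow`; so `psi p r g = 1`. For the instance
`HasEnoughRootsOfUnity` see `Dec.lean` (`NeZero (p : AlgebraicClosure K)`).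
-/

set_option autoImplicit false
set_option synthInstance.maxHeartbeats 400000

open scoped Pointwise NumberField

namespace Pool.Agent.H74.SC

variable {K : Type} [Field K] [NumberField K]

theorem root_inj {p n : ℕ} (hp : p.Prime) {P : Ideal (Zb K)} (hP : P.IsPrime) (hpP : (p : Zb K) ∉ P)
    {η : Zb K} (h1 : η ^ p ^ n = 1) (h2 : η - 1 ∈ P) : η = 1 := by
  induction n generalizing η with
  | zero => simpa using h1
  | succ n ih =>
    have h3 : (η ^ p) ^ p ^ n = 1 := by
      rw [← pow_mul, mul_comm, ← pow_succ]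
      exact h1
    have hk : ∀ k : ℕ, η ^ k - 1 ∈ P := by
      intro k
      have h4 : (η - 1) ∣ η ^ k - 1 := by
        have := sub_dvd_pow_sub_pow η 1 k
        rwa [one_pow] at this
      exact P.mem_of_dvd h4 h2
    have h5 : η ^ p = 1 := ih h3 (hk p)
    by_contra hne
    have h6 : (∑ i ∈ Finset.range p, η ^ i) * (η - 1) = 0 := by
      rw [geom_sum_mul, h5, sub_self]
    have h7 : ∑ i ∈ Finset.range p, η ^ i = 0 := by
      rcases mul_eq_zero.1 h6 with h | h
      · exact h
      · exact absurd (sub_eq_zero.1 h) hne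
    have h8 : ∑ i ∈ Finset.range p, (η ^ i - 1) ∈ P := P.sum_mem fun i _ => hk i
    rw [Finset.sum_sub_distrib, h7] at h8
    simp only [Finset.sum_const, Finset.card_range, nsmul_eq_mul, mul_one, zero_sub] at h8
    exact hpP (P.neg_mem_iff.1 h8)

theorem inertia_psi {p : ℕ} [Fact p.Prime] {P : Ideal (Zb K)} (hP : P.IsPrime) (hpP : (p : Zb K) ∉ P) (r : ℕ)
    {g : Gal(AlgebraicClosure K/K)} (hg : g ∈ P.inertia Gal(AlgebraicClosure K/K)) : psi p r g = 1 := by
  have hp : p.Prime := Fact.out
  have : NeZero (p : AlgebraicClosure K) := ⟨by exact_mod_cast hp.ne_zero⟩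
  have key : (cyclotomicCharacter (AlgebraicClosure K) p g.toRingEquiv : ℤ_[p]) = 1 := by
    refine PadicInt.ext_of_toZModPow.1 fun n => ?_
    rw [map_one]
    rcases Nat.eq_zero_or_pos n with rfl | hn
    · have : Subsingleton (ZMod (p ^ 0)) := by rw [pow_zero]; infer_instance
      exact Subsingleton.elim _ _
    obtain ⟨ζ, hζ⟩ := HasEnoughRootsOfUnity.exists_primitiveRoot (AlgebraicClosure K) (p ^ n)
    have hpn : 1 < p ^ n := Nat.one_lt_pow hn.ne' hp.one_lt
    have : NeZero (p ^ n) := ⟨by omega⟩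
    have hint : IsIntegral ℤ ζ := by
      refine IsIntegral.of_pow (by omega : 0 < p ^ n) ?_
      rw [hζ.pow_eq_one]
      exact isIntegral_one
    let z : Zb K := ⟨ζ, hint⟩
    have hz : z ^ p ^ n = 1 := Subtype.ext hζ.pow_eq_one
    have hgz : (g • z) ^ p ^ n = 1 := by
      rw [← smul_pow', hz, smul_one]
    have h1 : g • z - z ∈ P := hg z
    have h2 : z * z ^ (p ^ n - 1) = 1 := by
      rw [← pow_succ', Nat.sub_add_cancel hpn.le]
      exact hz
    have h3 : (g • z) * z ^ (p ^ n - 1) = 1 := by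
      refine root_inj hp hP hpP (n := n) ?_ ?_
      · rw [mul_pow, hgz, ← pow_mul, mul_comm (p ^ n - 1), pow_mul, hz, one_pow, one_mul]
      · have h4 : (g • z) * z ^ (p ^ n - 1) - 1 = (g • z - z) * z ^ (p ^ n - 1) := by
          rw [sub_mul, h2]
        rw [h4]
        exact P.mul_mem_right _ h1
    have h5 : g • z = z := by
      calc g • z = (g • z) * (z * z ^ (p ^ n - 1)) := by rw [h2, mul_one]
        _ = ((g • z) * z ^ (p ^ n - 1)) * z := by ring
        _ = z := by rw [h3, one_mul]
    have h6 : g ζ = ζ := congrArg Subtype.val h5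
    have h7 := cyclotomicCharacter.spec (L := AlgebraicClosure K) p (n := n) g.toRingEquiv ζ hζ.pow_eq_one
    have h8 : g.toRingEquiv ζ = ζ ^ 1 := by rw [pow_one]; exact h6
    rw [h8] at h7
    have h9 := hζ.pow_inj hpn (ZMod.val_lt _) h7
    have h10 := congrArg (Nat.cast : ℕ → ZMod (p ^ n)) h9
    rw [ZMod.natCast_zmod_val] at h10
    rw [← h10, Nat.cast_one]
  unfold psi
  rw [key, one_pow]

end Pool.Agent.H74.SC
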