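import Pool.Agent.H74.SC.Fin
import Pool.Agent.H74.SC.Ad
import Pool.Agent.H74.SC.In

/-!
Project SC (MP_335839_SC), helper74: the global equivalence.
-/

set_option autoImplicit false
set_option linter.unusedSectionVars false
set_option synthInstance.maxHeartbeats 400000

open scoped Pointwise NumberField

namespace Pool.Agent.H74.SC

/-- the places above `p` (as the set of all ideals containing `p`) -/
def Sp (K : Type) [Field K] [NumberField K] (p : ℕ) : Set (Ideal (𝓞 K)) := {v | (p : 𝓞 K) ∈ v}

variable {K : Type} [Field K] [NumberField K]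

theorem mem_of_below {p : ℕ} {P : Ideal (Zb K)} (h : (p : 𝓞 K) ∈ below K P) : (p : Zb K) ∈ P := by
  unfold below at h
  rw [Ideal.mem_comap, map_natCast] at h
  exact h

/-- enlarging `S` -/
theorem zero_mono {p : ℕ} [Fact p.Prime] {r : ℕ} {S : Set (Ideal (𝓞 K))} (hS : Above K p S)
    {F : IntermediateField K (AlgebraicClosure K)} (h : ShaZero K p r (Sp K p) F) : ShaZero K p r S F := by
  intro c hc
  refine h c ⟨hc.cont, hc.mul, fun P hP hP0 hPS g hg => ?_, fun P hP hP0 hPS => ?_⟩
  · by_cases h1 : below K P ∈ S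
    · obtain ⟨b, hb⟩ := hc.loc P hP hP0 h1
      have h2 := hb g (Ideal.inertia_le_stabilizer P hg)
      rw [inertia_psi hP (fun hp => hPS (below_mem hp)) r hg, sub_self, zero_mul] at h2
      exact h2
    · exact hc.unram P hP hP0 h1 g hg
  · refine hc.loc P hP hP0 (hS _ ?_ hPS)
    unfold below
    exact hP.comap _

theorem above_Sp (p : ℕ) : Above K p (Sp K p) := fun _ _ h => h

theorem psi_on_I {p : ℕ} [Fact p.Prime] (r : ℕ) : ∀ I ∈ Iset K (Sp K p), ∀ g ∈ I, psiH (K := K) p r g = 1 := by
  rintro _ ⟨P, hP, hP0, hPS, rfl⟩ g hg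
  exact inertia_psi hP (fun hp => hPS (below_mem hp)) r hg

/-- a torsion-free module with an action of the Galois group which factors through a finite extension -/
structure IsArtin (W : Type) [AddCommGroup W] [DistribMulAction Gal(AlgebraicClosure K/K) W] : Prop where
  torsionFree : ∀ (k : ℕ) (w : W), k ≠ 0 → k • w = 0 → w = 0
  finite : ∃ L : IntermediateField K (AlgebraicClosure K), FiniteDimensional K L ∧ ∀ g ∈ L.fixingSubgroup, ∀ w : W, g • w = w
  nonzero : ∃ w : W, w ≠ 0

/-- detecting a module by a field -/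
def Fixes (W : Type) [AddCommGroup W] [DistribMulAction Gal(AlgebraicClosure K/K) W]
    (F : IntermediateField K (AlgebraicClosure K)) : Prop :=
  ∃ w : W, w ≠ 0 ∧ ∀ g ∈ F.fixingSubgroup, g • w = w

open Classical in
/-- a field of minimal degree with a nonzero fixed vector is periodic -/
theorem minimal_periodic (W : Type) [AddCommGroup W] [DistribMulAction Gal(AlgebraicClosure K/K) W] (hW : IsArtin (K := K) W)
    (F : IntermediateField K (AlgebraicClosure K)) [FiniteDimensional K F] (hF : Fixes W F)
    (hmin : ∀ F' : IntermediateField K (AlgebraicClosure K), FiniteDimensional K F' → Fixes W F' →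
      Module.finrank K F ≤ Module.finrank K F') : Periodic K F := by
  by_contra hper
  unfold Periodic at hper
  push Not at hper
  obtain ⟨E0, q, q', hq, hq', hcard, hnc⟩ := hper
  obtain ⟨𝓟, k, hk, h𝓟, hpar⟩ := par E0 hq hq' hcard hnc
  have : Fintype (F ≃ₐ[K] F) := Fintype.ofFinite _
  obtain ⟨w, hw, hfix⟩ := hF
  let s : (F ≃ₐ[K] F) → Gal(AlgebraicClosure K/K) := (datF F).s
  have hs : ∀ e, ∀ x : F, s e x = e x := by
    intro e x
    change (if e = 1 then 1 else (glu_ext F e).choose : Gal(AlgebraicClosure K/K)) x = e x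
    by_cases he : e = 1
    · rw [if_pos he, he]
      rfl
    · rw [if_neg he]
      exact (glu_ext F e).choose_spec x
  have h0 : ∀ E' : Subgroup (F ≃ₐ[K] F), E' ≠ ⊥ → ∑ x ∈ Finset.univ.filter (· ∈ E'), s x • w = 0 := by
    intro E' hE'
    by_contra hne
    have hFx : Fixes W (Fx F E') := by
      refine ⟨_, hne, fun g hg => ?_⟩
      obtain ⟨e, he, hge⟩ := (glu_mem F E' g).1 hg
      rw [Finset.smul_sum]
      refine Finset.sum_bij' (fun x _ => e * x) (fun x _ => e⁻¹ * x) ?_ ?_ ?_ ?_ ?_
      · intro x hx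
        simp only [Finset.mem_filter, Finset.mem_univ, true_and] at hx ⊢
        exact E'.mul_mem he hx
      · intro x hx
        simp only [Finset.mem_filter, Finset.mem_univ, true_and] at hx ⊢
        exact E'.mul_mem (E'.inv_mem he) hx
      · intro x _
        group
      · intro x _
        group
      · intro x _
        have h1 : (s (e * x))⁻¹ * (g * s x) ∈ F.fixingSubgroup := by
          intro y
          change (s (e * x)).symm (g (s x y)) = y
          rw [hs x y, hge]
          rw [AlgEquiv.symm_apply_eq, hs]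
          rfl
        have h2 := hfix _ h1
        rw [mul_smul, inv_smul_eq_iff, mul_smul] at h2
        exact h2
    have hfin : FiniteDimensional K (Fx F E') := by
      exact FiniteDimensional.of_injective (IntermediateField.inclusion (glu_le F E')).toLinearMap
        (IntermediateField.inclusion (glu_le F E')).injective
    exact absurd (hmin _ hfin hFx) (not_le.2 (glu_lt F E' hE'))
  have hE0 : E0 ≠ ⊥ := by
    rintro rfl
    rw [Subgroup.card_bot] at hcard
    have h2 := hq.two_le
    have h3 := hq'.two_le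
    nlinarith
  have h1 := hpar W (fun x => s x • w)
  rw [Finset.sum_eq_zero fun H hH => h0 H (h𝓟 H hH).2, h0 E0 hE0, zero_add] at h1
  have h2 : s 1 • w = w := by
    have h3 : s 1 = 1 := (datF F).s1
    rw [h3, one_smul]
  simp only [h2] at h1
  exact hw (hW.torsionFree k w hk.ne' h1.symm)

theorem exists_normal (L F : IntermediateField K (AlgebraicClosure K)) [FiniteDimensional K L] [FiniteDimensional K F] :
    ∃ M : IntermediateField K (AlgebraicClosure K), FiniteDimensional K M ∧ Normal K M ∧ L ≤ M ∧ F ≤ M := by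
  refine ⟨IntermediateField.normalClosure K (L ⊔ F : IntermediateField K (AlgebraicClosure K)) (AlgebraicClosure K), ?_, ?_, ?_, ?_⟩
  · infer_instance
  · infer_instance
  · exact le_sup_left.trans (IntermediateField.le_normalClosure _)
  · exact le_sup_right.trans (IntermediateField.le_normalClosure _)

theorem normal_conj {M : IntermediateField K (AlgebraicClosure K)} [Normal K M] (t n : Gal(AlgebraicClosure K/K))
    (hn : n ∈ M.fixingSubgroup) : t⁻¹ * n * t ∈ M.fixingSubgroup := by
  intro x
  have h1 : t x ∈ M := by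
    have h2 := AlgEquiv.restrictNormal_commutes t M x
    have h3 : t (x : AlgebraicClosure K) = ((t.restrictNormal M) x : M) := h2.symm
    rw [h3]
    exact ((t.restrictNormal M) x).2
  change t⁻¹ (n (t x)) = x
  have h2 : n (t x) = t x := hn ⟨_, h1⟩
  rw [h2]
  exact AlgEquiv.symm_apply_apply t x

theorem psi_ne {p : ℕ} [Fact p.Prime] (hp2 : p ≠ 2) {r : ℕ} (hr : 0 < r) (M : IntermediateField K (AlgebraicClosure K))
    [FiniteDimensional K M] : ∃ g ∈ M.fixingSubgroup, psiH (K := K) p r g ≠ 1 := by
  obtain ⟨P, hP, hP0, hpP⟩ := exists_P (K := K) (p := p) Fact.out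
  obtain ⟨g, hg, -, hg3⟩ := dec hp2 hr M hP hpP
  exact ⟨g, hg, hg3⟩

/-- the main theorem -/
theorem glob (K : Type) [Field K] [NumberField K] (p : ℕ) [Fact p.Prime] (hp2 : p ≠ 2) {r : ℕ} (hr : 0 < r) :
    List.TFAE
      [∀ (L : IntermediateField K (AlgebraicClosure K)) (S : Set (Ideal (𝓞 K))), FiniteDimensional K L → Above K p S →
          ShaZero K p r S L,
       ∀ F : IntermediateField K (AlgebraicClosure K), FiniteDimensional K F → Periodic K F → ShaZero K p r (Sp K p) F,
       ∀ (W : Type) [AddCommGroup W] [DistribMulAction Gal(AlgebraicClosure K/K) W], IsArtin (K := K) W →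
          ∃ F : IntermediateField K (AlgebraicClosure K), FiniteDimensional K F ∧ Fixes W F ∧ ShaZero K p r (Sp K p) F] := by
  tfae_have 1 → 2 := fun h F hF _ => h F _ hF (above_Sp p)
  tfae_have 2 → 3 := by
    intro h W _ _ hW
    have hex : ∃ m : ℕ, ∃ F : IntermediateField K (AlgebraicClosure K), FiniteDimensional K F ∧ Fixes W F ∧
        Module.finrank K F = m := by
      obtain ⟨L, hL, hL2⟩ := hW.finite
      obtain ⟨w, hw⟩ := hW.nonzero
      exact ⟨_, L, hL, ⟨w, hw, fun g hg => hL2 g hg w⟩, rfl⟩
    classical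
    obtain ⟨F, hF, hF2, hF3⟩ := Nat.find_spec hex
    refine ⟨F, hF, hF2, h F hF (minimal_periodic W hW F hF2 fun F' hF' hF2' => ?_)⟩
    rw [hF3]
    exact Nat.find_min' hex ⟨F', hF', hF2', rfl⟩
  tfae_have 3 → 1 := by
    intro h L S hL hS
    apply zero_mono hS
    obtain ⟨M, hM, hM2, hLM, -⟩ := exists_normal L L
    rw [← zero_iff]
    refine descend2 (N := M.fixingSubgroup) (H1 := M.fixingSubgroup) le_rfl (IntermediateField.fixingSubgroup_antitone hLM)
      (fun t _ n hn => normal_conj t n hn) (psi_ne hp2 hr M) ?_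
    have hnorm : M.fixingSubgroup.Normal := ⟨fun n hn t => by
      have h1 := normal_conj t⁻¹ n hn
      rwa [inv_inv] at h1⟩
    have hfi : M.fixingSubgroup.FiniteIndex := by
      have : IsGalois K (AlgebraicClosure K) := inferInstance
      refine ⟨?_⟩
      rw [← IntermediateField.finrank_eq_fixingSubgroup_index]
      exact Module.finrank_pos.ne'
    refine mainW (stab_D _) (stab_I _) hnorm hfi (IntermediateField.fixingSubgroup_isOpen M) (psi_on_I r) ?_ ?_
    · obtain ⟨P, hP, hP0, hpP⟩ := exists_P (K := K) (p := p) Fact.out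
      obtain ⟨g, hg, hg2, hg3⟩ := dec hp2 hr M hP hpP
      exact ⟨_, ⟨P, hP, hP0, below_mem hpP, rfl⟩, g, hg2, hg, hg3⟩
    · intro W _ _ htf htriv hne
      obtain ⟨F, hF, ⟨w, hw, hfix⟩, hF3⟩ := h W ⟨htf, ⟨M, hM, htriv⟩, hne⟩
      refine ⟨F.fixingSubgroup ⊔ M.fixingSubgroup, le_sup_right, ?_, w, hw, ?_⟩
      · obtain ⟨M', hM', hM2', hFM, -⟩ := exists_normal F F
        exact descend2 (N := M'.fixingSubgroup) (H1 := F.fixingSubgroup) (IntermediateField.fixingSubgroup_antitone hFM)
          le_sup_left (fun t _ n hn => normal_conj t n hn) (psi_ne hp2 hr M') ((zero_iff p r _ F).2 hF3)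
      · have h1 : F.fixingSubgroup ⊔ M.fixingSubgroup ≤ MulAction.stabilizer Gal(AlgebraicClosure K/K) w :=
          sup_le (fun g hg => hfix g hg) (fun g hg => htriv g hg w)
        exact fun g hg => h1 hg
  tfae_finish

end Pool.Agent.H74.SC
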