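import Pool.Agent.H74.SC.Sin

/-!
Project SC (MP_335839_SC), helper74: the equivalence for a finite normal extension `L/K`.
-/

set_option autoImplicit false
set_option linter.unusedSectionVars false
set_option synthInstance.maxHeartbeats 400000

open scoped Pointwise NumberField

namespace Pool.Agent.H74.SC

variable {K : Type} [Field K] [NumberField K]

open Classical in
/-- a group acting freely has only cyclic subgroups of order `q q'` -/
theorem free_periodic {F : IntermediateField K (AlgebraicClosure K)} [FiniteDimensional K F] (h : FreeAct K F) : Periodic K F := by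
  obtain ⟨A, i1, i2, htf, ⟨a, ha⟩, hfree⟩ := h
  intro E0 q q' hq hq' hcard
  by_contra hnc
  obtain ⟨𝓟, k, hk, h𝓟, hpar⟩ := par E0 hq hq' hcard hnc
  have : Fintype (F ≃ₐ[K] F) := Fintype.ofFinite _
  have h0 : ∀ E' : Subgroup (F ≃ₐ[K] F), E' ≠ ⊥ → ∑ x ∈ Finset.univ.filter (· ∈ E'), x • a = 0 := by
    intro E' hE'
    obtain ⟨e, he, he1⟩ := (E'.bot_or_exists_ne_one).resolve_left hE'
    apply hfree e he1
    rw [Finset.smul_sum]
    refine Finset.sum_bij' (fun x _ => e * x) (fun x _ => e⁻¹ * x) ?_ ?_ ?_ ?_ ?_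
    · intro x hx
      simp only [Finset.mem_filter, Finset.mem_univ, true_and] at hx ⊢
      exact E'.mul_mem he hx
    · intro x hx
      simp only [Finset.mem_filter, Finset.mem_univ, true_and] at hx ⊢
      exact E'.mul_mem (E'.inv_mem he) hx
    · intro x _
      group
    · intro x _
      group
    · intro x _
      exact (mul_smul e x a).symm
  have hE0 : E0 ≠ ⊥ := by
    rintro rfl
    rw [Subgroup.card_bot] at hcard
    have h2 := hq.two_le
    have h3 := hq'.two_le
    nlinarith
  have h1 := hpar A (fun x => x • a)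
  rw [Finset.sum_eq_zero fun H hH => h0 H (h𝓟 H hH).2, h0 E0 hE0, zero_add, one_smul] at h1
  exact ha (htf k a hk.ne' h1.symm)

/-- a field `F ≤ L` of minimal degree with a nonzero fixed vector -/
theorem minimal_free (W : Type) [AddCommGroup W] [DistribMulAction Gal(AlgebraicClosure K/K) W]
    (htf : ∀ (k : ℕ) (w : W), k ≠ 0 → k • w = 0 → w = 0)
    (F : IntermediateField K (AlgebraicClosure K)) [FiniteDimensional K F] (hF : Fixes W F)
    (hmin : ∀ F' : IntermediateField K (AlgebraicClosure K), F' ≤ F → Fixes W F' →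
      Module.finrank K F ≤ Module.finrank K F') : FreeAct K F := by
  classical
  obtain ⟨w0, hw0, hfix0⟩ := hF
  let s : (F ≃ₐ[K] F) → Gal(AlgebraicClosure K/K) := (datF F).s
  have hs : ∀ e, ∀ x : F, s e x = e x := by
    intro e x
    change (if e = 1 then 1 else (glu_ext F e).choose : Gal(AlgebraicClosure K/K)) x = e x
    by_cases he : e = 1
    · rw [if_pos he, he]
      rfl
    · rw [if_neg he]
      exact (glu_ext F e).choose_spec x
  -- the fixed vectors
  let A : AddSubgroup W := {
    carrier := {w | ∀ g ∈ F.fixingSubgroup, g • w = w}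
    zero_mem' := fun g _ => smul_zero g
    add_mem' := fun {a b} ha hb g hg => by rw [smul_add, ha g hg, hb g hg]
    neg_mem' := fun {a} ha g hg => by rw [smul_neg, ha g hg] }
  have hA : ∀ (t : Gal(AlgebraicClosure K/K)) (e : F ≃ₐ[K] F), (∀ x : F, t x = e x) → ∀ w ∈ A, t • w ∈ A ∧ t • w = s e • w := by
    intro t e hte w hw
    constructor
    · intro g hg
      have h1 : t⁻¹ * (g * t) ∈ F.fixingSubgroup := by
        intro y
        change t.symm (g (t y)) = y
        rw [hte]
        have h2 : g ((e y : F) : AlgebraicClosure K) = e y := hg (e y)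
        rw [h2, ← hte, AlgEquiv.symm_apply_apply]
      have h3 := hw _ h1
      rw [mul_smul, inv_smul_eq_iff, mul_smul] at h3
      exact h3
    · have h1 : (s e)⁻¹ * t ∈ F.fixingSubgroup := by
        intro y
        change (s e).symm (t y) = y
        rw [hte, AlgEquiv.symm_apply_eq, hs]
      have h3 := hw _ h1
      rw [mul_smul, inv_smul_eq_iff] at h3
      exact h3
  let act : DistribMulAction (F ≃ₐ[K] F) A := {
    smul := fun e w => ⟨s e • (w : W), (hA (s e) e (hs e) w w.2).1⟩
    one_smul := fun w => by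
      apply Subtype.ext
      change s 1 • (w : W) = w
      have h3 : s 1 = 1 := (datF F).s1
      rw [h3, one_smul]
    mul_smul := fun e f w => by
      apply Subtype.ext
      change s (e * f) • (w : W) = s e • (s f • (w : W))
      have h1 := (hA (s e * s f) (e * f) (fun x => by
        change s e (s f x) = _
        rw [hs f, hs e]
        rfl) w w.2).2
      rw [← h1, mul_smul]
    smul_zero := fun e => by
      apply Subtype.ext
      change s e • (0 : W) = 0
      rw [smul_zero]
    smul_add := fun e v w => by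
      apply Subtype.ext
      change s e • ((v : W) + (w : W)) = s e • (v : W) + s e • (w : W)
      rw [smul_add] }
  refine ⟨A, inferInstance, act, ?_, ?_, ?_⟩
  · intro k a hk h
    apply Subtype.ext
    apply htf k a hk
    have h1 := congrArg (Subtype.val : A → W) h
    simpa using h1
  · refine ⟨⟨w0, hfix0⟩, fun h => hw0 ?_⟩
    exact congrArg (Subtype.val : A → W) h
  · intro e he a hea
    by_contra hne
    have hea' : s e • (a : W) = a := congrArg (Subtype.val : A → W) hea
    have hz : Subgroup.zpowers e ≠ ⊥ := by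
      rw [Ne, Subgroup.zpowers_eq_bot]
      exact he
    have hFx : Fixes W (Fx F (Subgroup.zpowers e)) := by
      refine ⟨a, fun h => hne (Subtype.ext h), fun g hg => ?_⟩
      obtain ⟨f, hf, hgf⟩ := (glu_mem F _ g).1 hg
      rw [(hA g f hgf a a.2).2]
      -- the stabilizer of `a` in `Aut(F/K)`
      have h1 : Subgroup.zpowers e ≤ MulAction.stabilizer (F ≃ₐ[K] F) a := by
        rw [Subgroup.zpowers_le]
        exact hea
      have h2 : f • a = a := h1 hf
      exact congrArg (Subtype.val : A → W) h2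
    exact absurd (hmin _ (glu_le F _) hFx) (not_le.2 (glu_lt F _ hz))

theorem exists_S (p : ℕ) (hp : p.Prime) : ∃ S : Set (Ideal (𝓞 K)), S.Finite ∧ Above K p S := by
  have h0 : Ideal.span {(p : 𝓞 K)} ≠ 0 := by
    rw [Ne, Ideal.zero_eq_bot, Ideal.span_singleton_eq_bot]
    exact_mod_cast hp.ne_zero
  refine ⟨(fun v : IsDedekindDomain.HeightOneSpectrum (𝓞 K) => v.asIdeal) '' {v | v.asIdeal ∣ Ideal.span {(p : 𝓞 K)}},
    (Ideal.finite_factors h0).image _, fun v hv hpv => ?_⟩
  refine ⟨⟨v, hv, ?_⟩, ?_, rfl⟩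
  · rintro rfl
    rw [Ideal.mem_bot] at hpv
    exact hp.ne_zero (by exact_mod_cast hpv)
  · rw [Set.mem_ofPred_eq, Ideal.dvd_span_singleton]
    exact hpv

/-- the main theorem -/
theorem main (p : ℕ) [Fact p.Prime] (hp2 : p ≠ 2) {r : ℕ} (hr : 0 < r) (L : IntermediateField K (AlgebraicClosure K))
    [FiniteDimensional K L] [Normal K L] :
    List.TFAE
      [∀ F : IntermediateField K (AlgebraicClosure K), F ≤ L → ∀ S : Set (Ideal (𝓞 K)), Above K p S → ShaZero K p r S F,
       ∃ S : Set (Ideal (𝓞 K)), S.Finite ∧ Above K p S ∧ ShaZero K p r S L,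
       ∀ F : IntermediateField K (AlgebraicClosure K), F ≤ L → Periodic K F →
          ∃ S : Set (Ideal (𝓞 K)), S.Finite ∧ Above K p S ∧ ShaZero K p r S F,
       ∀ F : IntermediateField K (AlgebraicClosure K), F ≤ L → FreeAct K F →
          ∃ S : Set (Ideal (𝓞 K)), S.Finite ∧ Above K p S ∧ ShaZero K p r S F,
       ∀ (W : Type) [AddCommGroup W] [DistribMulAction Gal(AlgebraicClosure K/K) W],
          (∀ (k : ℕ) (w : W), k ≠ 0 → k • w = 0 → w = 0) → (∀ g ∈ L.fixingSubgroup, ∀ w : W, g • w = w) →
          (∃ w : W, w ≠ 0) →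
          ∃ F : IntermediateField K (AlgebraicClosure K), F ≤ L ∧
            (∃ w : W, w ≠ 0 ∧ ∀ g ∈ F.fixingSubgroup, g • w = w) ∧
            ∃ S : Set (Ideal (𝓞 K)), S.Finite ∧ Above K p S ∧ ShaZero K p r S F] := by
  have hfd : ∀ F : IntermediateField K (AlgebraicClosure K), F ≤ L → FiniteDimensional K F := fun F hFL =>
    FiniteDimensional.of_injective (IntermediateField.inclusion hFL).toLinearMap (IntermediateField.inclusion hFL).injective
  tfae_have 1 → 2 := by
    intro h
    obtain ⟨S, hS, hS2⟩ := exists_S (K := K) p Fact.out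
    exact ⟨S, hS, hS2, h L le_rfl S hS2⟩
  tfae_have 2 → 3 := by
    rintro ⟨S, hS, hS2, h⟩ F hFL _
    refine ⟨S, hS, hS2, ?_⟩
    rw [← zero_iff] at h ⊢
    exact descend2 (N := L.fixingSubgroup) le_rfl (IntermediateField.fixingSubgroup_antitone hFL)
      (fun t _ n hn => normal_conj t n hn) (psi_ne hp2 hr L) h
  tfae_have 3 → 4 := by
    intro h F hFL hfree
    have := hfd F hFL
    exact h F hFL (free_periodic hfree)
  tfae_have 4 → 5 := by
    intro h W _ _ htf htriv hne
    have hex : ∃ m : ℕ, ∃ F : IntermediateField K (AlgebraicClosure K), F ≤ L ∧ Fixes W F ∧ Module.finrank K F = m := by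
      obtain ⟨w, hw⟩ := hne
      exact ⟨_, L, le_rfl, ⟨w, hw, fun g hg => htriv g hg w⟩, rfl⟩
    classical
    obtain ⟨F, hF, hF2, hF3⟩ := Nat.find_spec hex
    have := hfd F hF
    refine ⟨F, hF, hF2, h F hF (minimal_free W htf F hF2 fun F' hF' hF2' => ?_)⟩
    rw [hF3]
    exact Nat.find_min' hex ⟨F', hF'.trans hF, hF2', rfl⟩
  tfae_have 5 → 1 := by
    intro h F' hF'L S hS
    apply zero_mono hS
    rw [← zero_iff]
    refine descend2 (N := L.fixingSubgroup) le_rfl (IntermediateField.fixingSubgroup_antitone hF'L)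
      (fun t _ n hn => normal_conj t n hn) (psi_ne hp2 hr L) ?_
    have hnorm : L.fixingSubgroup.Normal := ⟨fun n hn t => by
      have h1 := normal_conj t⁻¹ n hn
      rwa [inv_inv] at h1⟩
    have hfi : L.fixingSubgroup.FiniteIndex := by
      refine ⟨?_⟩
      rw [← IntermediateField.finrank_eq_fixingSubgroup_index]
      exact Module.finrank_pos.ne'
    refine mainW (stab_D _) (stab_I _) hnorm hfi (IntermediateField.fixingSubgroup_isOpen L) (psi_on_I r) ?_ ?_
    · obtain ⟨P, hP, hP0, hpP⟩ := exists_P (K := K) (p := p) Fact.out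
      obtain ⟨g, hg, hg2, hg3⟩ := dec hp2 hr L hP hpP
      exact ⟨_, ⟨P, hP, hP0, below_mem hpP, rfl⟩, g, hg2, hg, hg3⟩
    · intro W _ _ htf htriv hne
      obtain ⟨F, hF, ⟨w, hw, hfix⟩, S', hS', hS2', hF3⟩ := h W htf htriv hne
      have := hfd F hF
      exact ⟨F.fixingSubgroup, IntermediateField.fixingSubgroup_antitone hF,
        (zero_iff p r _ F).2 (zero_anti hp2 hr hS2' hS' hF3), w, hw, hfix⟩
  tfae_finish

end Pool.Agent.H74.SC
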