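import Pool.Agent.H74.SC.In
import Pool.Agent.H74.SC.Tra

/-!
ROW SC/Fro (helper74, project MP_335839_SC). Decomposition groups at primes not above `p` also act on the `p`-power roots of unity through an infinite group.

PROOF. Let `ℓ` be the prime number in `P`, `ℓ ≠ p`. There is `g0 ∈ Gal(Ω/ℚ)` with `g0 • P = P` and `g0 x - x^ℓ ∈ P` for all `x ∈ Zb K` (Frobenius): Mathlib
`Ideal.Quotient.stabilizerHom_surjective_of_profinite` (`Mathlib/RingTheory/Invariant/Profinite.lean`) for `A = ℤ`, `B = Zb K`, `G = Gal(Ω/ℚ)` (the instances: see `Tra.lean`, helper35, same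
theory file) and the automorphism `x ↦ x^ℓ` of `Zb K ⧸ P` over `ℤ ⧸ (ℓ)` (bijective since `Zb K ⧸ P` is algebraic over a finite field: `frobenius` + algebraic; or `frobeniusEquiv` for perfect rings).
For a primitive `p^n`-th root of unity `ζ`: `g0 ζ - ζ^ℓ ∈ P`, `η = g0 ζ / ζ^ℓ` satisfies `η - 1 ∈ P` (`ζ` is a unit), so `g0 ζ = ζ^ℓ` by `root_inj`. Hence the cyclotomic character of `g0` is `ℓ` modulo
every `p^n`, so it is `ℓ`. As in `Dec.lean` (end of the proof of `dec`, can be copied): some power `g0^j`, `j > 0`, fixes `L` pointwise, gives an element `g` of `Gal(Ω/K)` in the stabilizer of `P`, and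
`psi p r g = ℓ^(j r) ≠ 1` (characteristic zero, `ℓ ≥ 2`).
-/

set_option autoImplicit false
set_option linter.unusedSectionVars false
set_option synthInstance.maxHeartbeats 400000

open scoped Pointwise NumberField

namespace Pool.Agent.H74.SC

variable {K : Type} [Field K] [NumberField K]

theorem fro_invariant : Algebra.IsInvariant ℤ (Zb K) Gal(AlgebraicClosure K/ℚ) := by
  have := tra_isGalois (K := K)
  refine ⟨fun b hb => ?_⟩
  have h1 : (b : AlgebraicClosure K) ∈ (⊥ : IntermediateField ℚ (AlgebraicClosure K)) := by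
    rw [InfiniteGalois.mem_bot_iff_fixed]
    intro f
    exact congrArg Subtype.val (hb f)
  obtain ⟨q, hq⟩ := IntermediateField.mem_bot.1 h1
  have h2 : IsIntegral ℤ (algebraMap ℚ (AlgebraicClosure K) q) := by
    rw [hq]
    exact b.2
  have h3 : IsIntegral ℤ q := (isIntegral_algebraMap_iff (algebraMap ℚ (AlgebraicClosure K)).injective).1 h2
  obtain ⟨n, hn⟩ := IsIntegrallyClosed.isIntegral_iff.1 h3
  refine ⟨n, Subtype.ext ?_⟩
  rw [← hq, ← hn]
  simp

attribute [local instance] Ideal.Quotient.field in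
/-- Frobenius elements in the absolute Galois group of `ℚ` -/
theorem exists_frobQ {P : Ideal (Zb K)} (hP : P.IsPrime) (hP0 : P ≠ ⊥) :
    ∃ q : ℕ, 2 ≤ q ∧ ∃ g : Gal(AlgebraicClosure K/ℚ), g • P = P ∧
      ∀ (ζ : Zb K) (m : ℕ), ζ ^ m = 1 → (m : Zb K) ∉ P → g • ζ = ζ ^ q := by
  classical
  have := tra_isGalois (K := K)
  have := fro_invariant (K := K)
  let _ : TopologicalSpace (Zb K) := ⊥
  have : DiscreteTopology (Zb K) := ⟨rfl⟩
  have : ContinuousSMul Gal(AlgebraicClosure K/ℚ) (Zb K) := by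
    rw [continuousSMul_iff_stabilizer_isOpen]
    intro x
    have h1 := stabilizer_isOpen_of_isIntegral (K := ℚ) (x : AlgebraicClosure K)
    have h2 : (MulAction.stabilizer Gal(AlgebraicClosure K/ℚ) x : Set Gal(AlgebraicClosure K/ℚ)) =
        (MulAction.stabilizer Gal(AlgebraicClosure K/ℚ) (x : AlgebraicClosure K) : Set Gal(AlgebraicClosure K/ℚ)) := by
      ext g
      simp only [SetLike.mem_coe, MulAction.mem_stabilizer_iff]
      rw [← Subtype.coe_inj]
      rfl
    rw [h2]
    exact h1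
  have := hP
  let p0 : Ideal ℤ := P.under ℤ
  have hint : Algebra.IsIntegral ℤ (Zb K) := inferInstance
  have hp0 : p0 ≠ ⊥ := by
    intro h
    exact hP0 (Ideal.eq_bot_of_comap_eq_bot h)
  have hp0p : p0.IsPrime := inferInstance
  have hp0m : p0.IsMaximal := hp0p.isMaximal hp0
  have hPm : P.IsMaximal := Ideal.isMaximal_of_isIntegral_of_isMaximal_comap P hp0m
  have hfin : Finite (ℤ ⧸ p0) := Ideal.finiteQuotientOfFreeOfNeBot p0 hp0
  cases nonempty_fintype (ℤ ⧸ p0)
  obtain ⟨p, hc⟩ := CharP.exists (ℤ ⧸ p0)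
  obtain ⟨k, hp, hk⟩ := FiniteField.card (ℤ ⧸ p0) p
  have hch : CharP (Zb K ⧸ P) p := CharP.of_ringHom_of_ne_zero (algebraMap (ℤ ⧸ p0) (Zb K ⧸ P)) p hp.ne_zero
  have hexp : ExpChar (Zb K ⧸ P) p := .prime hp
  have hperf : PerfectField (ℤ ⧸ p0) := inferInstance
  have hint2 : Algebra.IsIntegral (ℤ ⧸ p0) (Zb K ⧸ P) := inferInstance
  have halg : Algebra.IsAlgebraic (ℤ ⧸ p0) (Zb K ⧸ P) := inferInstance
  have hperf2 : PerfectField (Zb K ⧸ P) := Algebra.IsAlgebraic.perfectField (ℤ ⧸ p0)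
  have hperf3 : PerfectRing (Zb K ⧸ P) p := inferInstance
  let l : (Zb K ⧸ P) ≃ₐ[ℤ ⧸ p0] Zb K ⧸ P :=
    { __ := iterateFrobeniusEquiv (Zb K ⧸ P) p k,
      commutes' r := by
        dsimp [iterateFrobenius_def]
        rw [← map_pow, ← hk, FiniteField.pow_card] }
  obtain ⟨σ, hσ⟩ := Ideal.Quotient.stabilizerHom_surjective_of_profinite (G := Gal(AlgebraicClosure K/ℚ)) p0 P l
  have hF : IsArithFrobAt ℤ (σ : Gal(AlgebraicClosure K/ℚ)) P := by
    intro x
    rw [← Ideal.Quotient.eq, Nat.card_eq_fintype_card]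
    have h1 := DFunLike.congr_fun hσ (Ideal.Quotient.mk P x)
    have h2 : Fintype.card (ℤ ⧸ P.under ℤ) = p ^ (k : ℕ) := hk
    rw [h2]
    exact h1
  refine ⟨Nat.card (ℤ ⧸ P.under ℤ), ?_, (σ : Gal(AlgebraicClosure K/ℚ)), σ.2, ?_⟩
  · exact Finite.one_lt_card
  · intro ζ m h1 h2
    exact hF.apply_of_pow_eq_one h1 h2

theorem exists_frob {p : ℕ} [Fact p.Prime] {r : ℕ} (hr : 0 < r) (L : IntermediateField K (AlgebraicClosure K))
    [FiniteDimensional K L] {P : Ideal (Zb K)} (hP : P.IsPrime) (hP0 : P ≠ ⊥) (hpP : (p : Zb K) ∉ P) :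
    ∃ g : Gal(AlgebraicClosure K/K), g ∈ L.fixingSubgroup ∧ g ∈ MulAction.stabilizer Gal(AlgebraicClosure K/K) P ∧
      psi p r g ≠ 1 := by
  have hp : p.Prime := Fact.out
  have : NeZero (p : AlgebraicClosure K) := ⟨by exact_mod_cast hp.ne_zero⟩
  -- a bound for the index
  let LQ : IntermediateField ℚ (AlgebraicClosure K) := L.restrictScalars ℚ
  have hfin : FiniteDimensional ℚ L := FiniteDimensional.trans ℚ K L
  have : FiniteDimensional ℚ LQ := hfin
  have := tra_isGalois (K := K)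
  have hidx : LQ.fixingSubgroup.index ≠ 0 := by
    rw [← IntermediateField.finrank_eq_fixingSubgroup_index]
    exact Module.finrank_pos.ne'
  obtain ⟨q, hq2, g0, hg0P, hg0⟩ := exists_frobQ hP hP0
  obtain ⟨j, hj0, hj, hgj⟩ := Subgroup.exists_pow_mem_of_index_ne_zero hidx g0
  -- as an automorphism over `K`
  have hfix : ∀ x ∈ L, (g0 ^ j) x = x := fun x hx => hgj ⟨x, hx⟩
  let g : Gal(AlgebraicClosure K/K) := AlgEquiv.ofRingEquiv (f := (g0 ^ j).toRingEquiv) (fun x => hfix _ (L.algebraMap_mem x))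
  have hgx : ∀ x, g x = (g0 ^ j) x := fun x => rfl
  refine ⟨g, fun x => hfix x x.2, ?_, ?_⟩
  · rw [MulAction.mem_stabilizer_iff]
    have h1 : g • P = (g0 ^ j) • P := by
      ext x
      rw [Ideal.mem_pointwise_smul_iff_inv_smul_mem, Ideal.mem_pointwise_smul_iff_inv_smul_mem]
      have h2 : g⁻¹ • x = (g0 ^ j)⁻¹ • x := by
        rw [inv_smul_eq_iff]
        apply Subtype.ext
        change (x : AlgebraicClosure K) = g ((g0 ^ j)⁻¹ (x : AlgebraicClosure K))
        rw [hgx]
        exact (AlgEquiv.apply_symm_apply (g0 ^ j) _).symm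
      rw [h2]
    rw [h1]
    have h3 : ∀ m : ℕ, (g0 ^ m) • P = P := by
      intro m
      induction m with
      | zero => rw [pow_zero, one_smul]
      | succ m ih => rw [pow_succ, mul_smul, hg0P, ih]
    exact h3 j
  · intro hpsi
    -- the cyclotomic character of `g0`
    let χ := cyclotomicCharacter (AlgebraicClosure K) p
    have hχg : χ g.toRingEquiv = (χ g0.toRingEquiv) ^ j := by
      rw [← map_pow]
      congr 1
      apply RingEquiv.ext
      intro x
      change (g0 ^ j) x = ((g0.toRingEquiv) ^ j) x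
      have h1 : ∀ m : ℕ, ∀ y, (g0 ^ m) y = ((g0.toRingEquiv) ^ m) y := by
        intro m
        induction m with
        | zero => intro y; rfl
        | succ m ih =>
          intro y
          rw [pow_succ, pow_succ]
          change (g0 ^ m) (g0 y) = ((g0.toRingEquiv) ^ m) (g0.toRingEquiv y)
          rw [ih]
          rfl
      exact h1 j x
    have h1 : (χ g0.toRingEquiv : ℤ_[p]) ^ (j * r) = 1 := by
      have h2 : psi p r g = (χ g.toRingEquiv : ℤ_[p]) ^ r := by
        unfold psi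
        push_cast
        rfl
      rw [h2, hχg, Units.val_pow_eq_pow_val, ← pow_mul] at hpsi
      exact hpsi
    have h3 : (χ g0.toRingEquiv : ℤ_[p]) = (q : ℤ_[p]) := by
      apply PadicInt.ext_of_toZModPow.1
      intro n
      obtain ⟨ζ, hζ⟩ := HasEnoughRootsOfUnity.exists_primitiveRoot (AlgebraicClosure K) (p ^ n)
      have h4 := cyclotomicCharacter.spec (L := AlgebraicClosure K) p (n := n) g0.toRingEquiv ζ hζ.pow_eq_one
      have hζi : IsIntegral ℤ ζ := hζ.isIntegral (pow_pos hp.pos _)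
      have h5 : g0.toRingEquiv ζ = ζ ^ q := by
        have h6 := hg0 (⟨ζ, hζi⟩ : Zb K) (p ^ n) (Subtype.ext hζ.pow_eq_one) (by
          intro h
          push_cast at h
          exact hpP (hP.mem_of_pow_mem n h))
        exact congrArg Subtype.val h6
      rw [h5] at h4
      have : NeZero (p ^ n) := ⟨(pow_pos hp.pos _).ne'⟩
      have h7 : ζ ^ q = ζ ^ (q % p ^ n) := by
        have h7a := pow_mod_orderOf ζ q
        rw [← hζ.eq_orderOf] at h7a
        exact h7a.symm
      rw [h7] at h4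
      have h8 := hζ.pow_inj (Nat.mod_lt _ (pow_pos hp.pos _)) (ZMod.val_lt _) h4
      have h9 := congrArg (Nat.cast : ℕ → ZMod (p ^ n)) h8
      rw [ZMod.natCast_zmod_val, ZMod.natCast_mod] at h9
      rw [map_natCast, h9]
    rw [h3] at h1
    have h4 : (q : ℤ_[p]) ^ (j * r) = ((q ^ (j * r) : ℕ) : ℤ_[p]) := by push_cast; rfl
    rw [h4] at h1
    have h5 : q ^ (j * r) = 1 := by exact_mod_cast h1
    have h6 : 1 < q ^ (j * r) := Nat.one_lt_pow (Nat.mul_pos hj0 hr).ne' (by omega)
    omega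

end Pool.Agent.H74.SC
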