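import Pool.Agent.H74.SC.Fin2
import Pool.Agent.H74.SC.Fro
import Pool.Agent.H74.SC.Com

/-!
Project SC (MP_335839_SC), helper74: independence of the finite set `S`.
-/

set_option autoImplicit false
set_option linter.unusedSectionVars false
set_option synthInstance.maxHeartbeats 400000

open scoped Pointwise NumberField

namespace Pool.Agent.H74.SC

variable {K : Type} [Field K] [NumberField K]

/-- transitivity over `K` -/
theorem traK {P P' : Ideal (Zb K)} (hP : P.IsPrime) (hP' : P'.IsPrime) (h : below K P = below K P') :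
    ∃ t : Gal(AlgebraicClosure K/K), t • P = P' := by
  obtain ⟨τ, hτ1, hτ2⟩ := tra (K := K) ((⊥ : IntermediateField K (AlgebraicClosure K)).restrictScalars ℚ) hP hP' (by
    intro x hx
    rw [IntermediateField.mem_restrictScalars, IntermediateField.mem_bot] at hx
    obtain ⟨y, hy⟩ := hx
    have h1 : IsIntegral ℤ y := by
      have h2 : IsIntegral ℤ (algebraMap K (AlgebraicClosure K) y) := by
        rw [hy]
        exact x.2
      exact (isIntegral_algebraMap_iff (algebraMap K (AlgebraicClosure K)).injective).1 h2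
    let z : 𝓞 K := ⟨y, h1⟩
    have h3 : (x : AlgebraicClosure K) = algebraMap K (AlgebraicClosure K) (algebraMap (𝓞 K) K z) := hy.symm
    rw [← mem_below x h3, h, mem_below x h3])
  have hfix : ∀ y : K, τ (algebraMap K (AlgebraicClosure K) y) = algebraMap K (AlgebraicClosure K) y := fun y => by
    apply hτ1
    rw [IntermediateField.mem_restrictScalars, IntermediateField.mem_bot]
    exact ⟨y, rfl⟩
  let t : Gal(AlgebraicClosure K/K) := AlgEquiv.ofRingEquiv (f := τ.toRingEquiv) hfix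
  refine ⟨t, ?_⟩
  rw [← hτ2]
  ext x
  rw [Ideal.mem_pointwise_smul_iff_inv_smul_mem, Ideal.mem_pointwise_smul_iff_inv_smul_mem]
  have h2 : t⁻¹ • x = τ⁻¹ • x := by
    rw [inv_smul_eq_iff]
    apply Subtype.ext
    change (x : AlgebraicClosure K) = t (τ⁻¹ (x : AlgebraicClosure K))
    exact (AlgEquiv.apply_symm_apply τ _).symm
  rw [h2]

/-- the local multiplier at a place not above `p` -/
theorem loc_mult {p : ℕ} [Fact p.Prime] {r : ℕ} (hr : 0 < r) (F : IntermediateField K (AlgebraicClosure K))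
    [FiniteDimensional K F] {c : Gal(AlgebraicClosure K/K) → ℤ_[p]}
    (hc : Cz (psiH p r) (Dset K (Sp K p)) (Iset K (Sp K p)) F.fixingSubgroup c) (v : Ideal (𝓞 K)) :
    ∃ m : ℤ_[p], m ≠ 0 ∧ ∀ P : Ideal (Zb K), P.IsPrime → P ≠ ⊥ → below K P = v →
      ∃ b, ∀ g ∈ MulAction.stabilizer Gal(AlgebraicClosure K/K) P, g ∈ F.fixingSubgroup →
        m * c g = (psiH p r g - 1) * b := by
  by_cases hv : (p : 𝓞 K) ∈ v
  · refine ⟨1, one_ne_zero, fun P hP hP0 hPv => ?_⟩
    obtain ⟨b, hb⟩ := hc.loc _ ⟨P, hP, hP0, by rw [hPv]; exact hv, rfl⟩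
    exact ⟨b, fun g hg hgF => by rw [one_mul]; exact hb g hg hgF⟩
  · by_cases hex : ∃ P : Ideal (Zb K), P.IsPrime ∧ P ≠ ⊥ ∧ below K P = v
    · obtain ⟨P0, hP0, hP00, hP0v⟩ := hex
      obtain ⟨M, hM, hM2, hFM, -⟩ := exists_normal F F
      have hpP0 : (p : Zb K) ∉ P0 := fun h => hv (hP0v ▸ below_mem h)
      obtain ⟨φ, hφM, hφ, hφ1⟩ := exists_frob hr M hP0 hP00 hpP0
      refine ⟨psiH p r φ - 1, sub_ne_zero.2 hφ1, fun P hP hP0' hPv => ?_⟩
      obtain ⟨t, ht⟩ := traK hP0 hP (hP0v.trans hPv.symm)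
      -- the conjugate of `φ`
      have h1 : t * φ * t⁻¹ ∈ MulAction.stabilizer Gal(AlgebraicClosure K/K) P := by
        rw [MulAction.mem_stabilizer_iff] at hφ ⊢
        rw [← ht, smul_smul, inv_mul_cancel_right, mul_smul, hφ]
      have h2 : t * φ * t⁻¹ ∈ F.fixingSubgroup := by
        have h3 := normal_conj (M := M) t⁻¹ φ hφM
        rw [inv_inv] at h3
        exact IntermediateField.fixingSubgroup_antitone hFM h3
      have h3 : psiH (K := K) p r (t * φ * t⁻¹) = psiH p r φ := by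
        have h4 := psi_conj (psiH (K := K) p r) t⁻¹ φ
        rwa [inv_inv] at h4
      have hpP : (p : Zb K) ∉ P := fun h => hv (hPv ▸ below_mem h)
      refine ⟨c (t * φ * t⁻¹), fun g hg hgF => ?_⟩
      have h5 := comm_inertia hP hP0' hg h1
      have h6 : g⁻¹ * (t * φ * t⁻¹)⁻¹ * g * (t * φ * t⁻¹) ∈ F.fixingSubgroup :=
        Subgroup.mul_mem _ (Subgroup.mul_mem _ (Subgroup.mul_mem _ (Subgroup.inv_mem _ hgF) (Subgroup.inv_mem _ h2)) hgF) h2
      have h7 := hc.unr _ ⟨P, hP, hP0', fun h => hpP (mem_of_below h), rfl⟩ _ h5 h6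
      have h8 := hc.mul g hgF _ h2
      have h9 := hc.mul _ (Subgroup.mul_mem _ h2 hgF) _ h6
      have h10 := hc.mul _ h2 g hgF
      have h11 : (t * φ * t⁻¹) * g * (g⁻¹ * (t * φ * t⁻¹)⁻¹ * g * (t * φ * t⁻¹)) = g * (t * φ * t⁻¹) := by group
      rw [h11, h7, h8, h10, h3, mul_zero, add_zero] at h9
      linear_combination -h9
    · exact ⟨1, one_ne_zero, fun P hP hP0 hPv => absurd ⟨P, hP, hP0, hPv⟩ hex⟩

/-- vanishing for some finite `S` implies vanishing for the set of places above `p` -/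
theorem zero_anti {p : ℕ} [Fact p.Prime] (hp2 : p ≠ 2) {r : ℕ} (hr : 0 < r) {S : Set (Ideal (𝓞 K))} (hS : Above K p S)
    (hfin : S.Finite) {F : IntermediateField K (AlgebraicClosure K)} [FiniteDimensional K F] (h : ShaZero K p r S F) :
    ShaZero K p r (Sp K p) F := by
  rw [← zero_iff] at h ⊢
  intro c hc
  choose m hm0 hm using loc_mult hr F hc
  classical
  let M : ℤ_[p] := ∏ v ∈ hfin.toFinset, m v
  have hM : M ≠ 0 := Finset.prod_ne_zero_iff.2 fun v _ => hm0 v
  obtain ⟨b, hb⟩ := h (fun g => M * c g) ⟨continuousOn_const.mul hc.cont, fun g hg h hh => by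
      rw [hc.mul g hg h hh]
      ring, by
      rintro _ ⟨P, hP, hP0, hPS, rfl⟩ g hg hgF
      have h1 : below K P ∉ Sp K p := fun hp => hPS (hS _ (by unfold below; exact hP.comap _) hp)
      rw [hc.unr _ ⟨P, hP, hP0, h1, rfl⟩ g hg hgF, mul_zero], by
      rintro _ ⟨P, hP, hP0, hPS, rfl⟩
      obtain ⟨b, hb⟩ := hm (below K P) P hP hP0 rfl
      have h1 : M = m (below K P) * ∏ v ∈ hfin.toFinset.erase (below K P), m v :=
        (Finset.mul_prod_erase _ _ (hfin.mem_toFinset.2 hPS)).symm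
      refine ⟨(∏ v ∈ hfin.toFinset.erase (below K P), m v) * b, fun g hg hgF => ?_⟩
      have h2 := hb g hg hgF
      rw [h1]
      linear_combination (∏ v ∈ hfin.toFinset.erase (below K P), m v) * h2⟩
  obtain ⟨P, hP, hP0, hpP⟩ := exists_P (K := K) (p := p) Fact.out
  obtain ⟨g0, hg0, hg2, hg3⟩ := dec hp2 hr F hP hpP
  obtain ⟨bD, hbD⟩ := hc.loc _ ⟨P, hP, hP0, below_mem hpP, rfl⟩
  have h9 : psiH (K := K) p r g0 - 1 ≠ 0 := sub_ne_zero.2 hg3
  have h7 : b = M * bD := by
    have h8 := hb g0 hg0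
    simp only [hbD g0 hg2 hg0] at h8
    apply mul_left_cancel₀ h9
    linear_combination -h8
  refine ⟨bD, fun n hn => ?_⟩
  apply mul_left_cancel₀ hM
  have h10 := hb n hn
  rw [h7] at h10
  linear_combination h10

end Pool.Agent.H74.SC
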